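import Pool.Agent.Lib.MP_47458b_co.Up.Defs

/-! Rooted descriptions of oriented trees, closed sets, extension of embeddings. -/

namespace Pool.Agent.Lib.MP_47458b_co.Up

open Finset

variable {V W : Type}

/-- U1. Every oriented tree has a rooted description at every root. -/
theorem exists_rooted {k : ℕ} {T : Digraph W} (hT : IsOrientedTree k T) (r : W) :
    Nonempty (Rooted T r) := by
  classical
  obtain ⟨hor, htree, -⟩ := hT
  set G := T.toSimpleGraphInclusive with hG
  have hadj : ∀ a b, G.Adj a b ↔ a ≠ b ∧ (T.Adj a b ∨ T.Adj b a) := by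
    intro a b
    rw [hG, Digraph.toSimpleGraphInclusive, SimpleGraph.fromRel_adj]
  have hne : ∀ a b, T.Adj a b → a ≠ b := fun a b h hab => hor.1 a (by rw [← hab] at h; exact h)
  -- a neighbour closer to the root
  have hex : ∀ x, x ≠ r → ∃ y, G.Adj x y ∧ G.dist r x = G.dist r y + 1 := by
    intro x hx
    obtain ⟨p, hp⟩ := (htree.connected.preconnected x r).exists_walk_length_eq_dist
    cases p with
    | nil => exact absurd rfl hx
    | @cons _ y _ h q =>
      refine ⟨y, h, ?_⟩
      have h1 : q.length + 1 = G.dist x r := by simpa using hp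
      have h2 : G.dist y r ≤ q.length := SimpleGraph.dist_le q
      have h3 := htree.dist_eq_dist_add_one_of_adj r h
      rw [SimpleGraph.dist_comm (u := r) (v := x), SimpleGraph.dist_comm (u := r) (v := y)] at *
      omega
  choose! par hpar1 hpar2 using hex
  -- uniqueness
  have huniq : ∀ x y, x ≠ r → G.Adj x y → G.dist r x = G.dist r y + 1 → par x = y := by
    intro x y hx hxy hd
    obtain ⟨p, hp, hpl⟩ := (htree.connected.preconnected r (par x)).exists_path_of_dist
    obtain ⟨q, hq, hql⟩ := (htree.connected.preconnected r y).exists_path_of_dist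
    have hnp : x ∉ p.support := by
      intro hmem
      have h1 : G.dist r x ≤ (p.takeUntil x hmem).length := SimpleGraph.dist_le _
      have h2 := p.length_takeUntil_le_length hmem
      have h3 := hpar2 x hx
      omega
    have hnq : x ∉ q.support := by
      intro hmem
      have h1 : G.dist r x ≤ (q.takeUntil x hmem).length := SimpleGraph.dist_le _
      have h2 := q.length_takeUntil_le_length hmem
      omega
    have hp' : (p.concat (hpar1 x hx).symm).IsPath := by
      rw [SimpleGraph.Walk.isPath_def, SimpleGraph.Walk.support_concat, List.nodup_append]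
      refine ⟨hp.support_nodup, by simp, ?_⟩
      intro a ha b hb hab
      rw [List.mem_singleton] at hb
      exact hnp ((hab.trans hb) ▸ ha)
    have hq' : (q.concat hxy.symm).IsPath := by
      rw [SimpleGraph.Walk.isPath_def, SimpleGraph.Walk.support_concat, List.nodup_append]
      refine ⟨hq.support_nodup, by simp, ?_⟩
      intro a ha b hb hab
      rw [List.mem_singleton] at hb
      exact hnq ((hab.trans hb) ▸ ha)
    have h : (⟨_, hp'⟩ : G.Path r x) = ⟨_, hq'⟩ :=
      (htree.isAcyclic.subsingleton_path r x).elim _ _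
    have h2 : p.concat (hpar1 x hx).symm = q.concat hxy.symm := congrArg Subtype.val h
    obtain ⟨h3, -⟩ := SimpleGraph.Walk.concat_inj h2
    exact h3
  refine ⟨⟨par, fun x => G.dist r x, ?_, ?_, ?_⟩⟩
  · intro x hx
    have := (hadj _ _).1 (hpar1 x hx)
    exact this.2.symm
  · intro x hx
    have := hpar2 x hx
    omega
  · intro a b hab
    have hGab : G.Adj a b := (hadj _ _).2 ⟨hne a b hab, Or.inl hab⟩
    rcases htree.dist_eq_dist_add_one_of_adj r hGab with h | h
    · left
      have har : a ≠ r := by
        rintro rfl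
        rw [SimpleGraph.dist_self] at h
        omega
      exact ⟨har, huniq a b har hGab h⟩
    · right
      have hbr : b ≠ r := by
        rintro rfl
        rw [SimpleGraph.dist_self] at h
        omega
      exact ⟨hbr, huniq b a hbr hGab.symm h⟩

/-- U2a. -/
theorem Closed.insert [DecidableEq W] {T : Digraph W} {r : W} (R : Rooted T r) {S : Finset W}
    (hS : R.Closed S) {x : W} (hp : R.par x ∈ S) : R.Closed (insert x S) := by
  refine ⟨Finset.mem_insert_of_mem hS.1, ?_⟩
  intro y hy hyr
  rcases Finset.mem_insert.1 hy with h | h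
  · rw [h]; exact Finset.mem_insert_of_mem hp
  · exact Finset.mem_insert_of_mem (hS.2 y h hyr)

/-- U2b. One more vertex. -/
theorem Emb.extend [DecidableEq W] {T : Digraph W} {D : Digraph V} (hT : IsOrientedGraph T) {r : W}
    (R : Rooted T r) {S : Finset W} (hS : R.Closed S) {φ : W → V} (hφ : Emb T D S φ) {x : W}
    (hx : x ∉ S) (_hp : R.par x ∈ S) {z : V} (hz : ∀ a ∈ S, φ a ≠ z)
    (h1 : R.sg x = true → D.Adj (φ (R.par x)) z) (h2 : R.sg x = false → D.Adj z (φ (R.par x))) :
    Emb T D (insert x S) (Function.update φ x z) := by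
  have hval : ∀ a ∈ S, Function.update φ x z a = φ a := by
    intro a ha
    apply Function.update_of_ne
    rintro rfl
    exact hx ha
  have hvx : Function.update φ x z x = z := Function.update_self _ _ _
  constructor
  · intro a ha b hb hab
    rw [Finset.mem_coe, Finset.mem_insert] at ha hb
    rcases ha with rfl | ha <;> rcases hb with rfl | hb
    · rfl
    · rw [hvx, hval b hb] at hab
      exact absurd hab.symm (hz b hb)
    · rw [hvx, hval a ha] at hab
      exact absurd hab (hz a ha)
    · rw [hval a ha, hval b hb] at hab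
      exact hφ.1 (Finset.mem_coe.2 ha) (Finset.mem_coe.2 hb) hab
  · intro a ha b hb hab
    rw [Finset.mem_insert] at ha hb
    rcases ha with rfl | ha <;> rcases hb with rfl | hb
    · exact absurd hab (hT.1 _)
    · -- `a` is the new vertex
      rcases R.edge _ _ hab with ⟨har, h⟩ | ⟨hbr, h⟩
      · have hsg : R.sg a = false := by
          have hab' : ¬ T.Adj (R.par a) a := by rw [h]; exact hT.2 _ _ hab
          rw [Rooted.sg]
          simp [hab']
        rw [hvx, hval b hb, ← h]
        exact h2 hsg
      · exact absurd (h ▸ hS.2 b hb hbr) hx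
    · rcases R.edge _ _ hab with ⟨har, h⟩ | ⟨hbr, h⟩
      · exact absurd (h ▸ hS.2 a ha har) hx
      · have hsg : R.sg b = true := by
          have hab' : T.Adj (R.par b) b := by rw [h]; exact hab
          rw [Rooted.sg]
          simp [hab']
        rw [hvx, hval a ha, ← h]
        exact h1 hsg
    · rw [hval a ha, hval b hb]
      exact hφ.2 a ha b hb hab

/-- U2c. Between two closed sets there is a next vertex. -/
theorem Closed.next {T : Digraph W} {r : W} (R : Rooted T r) {S S' : Finset W} (hS : R.Closed S)
    (hS' : R.Closed S') (h : ¬ S' ⊆ S) : ∃ x ∈ S', x ∉ S ∧ R.par x ∈ S := by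
  classical
  have hne : (S' \ S).Nonempty := by
    rw [Finset.nonempty_iff_ne_empty, Ne, Finset.sdiff_eq_empty_iff_subset]
    exact h
  obtain ⟨x, hx, hmin⟩ := Finset.exists_min_image (S' \ S) R.dep hne
  rw [Finset.mem_sdiff] at hx
  refine ⟨x, hx.1, hx.2, ?_⟩
  by_contra hcon
  have hxr : x ≠ r := fun h => hx.2 (h ▸ hS.1)
  have h1 := hmin (R.par x) (Finset.mem_sdiff.2 ⟨hS'.2 x hx.1 hxr, hcon⟩)
  have h2 := R.dep_par x hxr
  omega

/-- U2d. Closed sets of every size between two closed sets. -/
theorem Closed.exists_card [DecidableEq W] {T : Digraph W} {r : W} (R : Rooted T r)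
    {S S' : Finset W} (hS : R.Closed S) (hS' : R.Closed S') (h : S ⊆ S') {j : ℕ}
    (h1 : S.card ≤ j) (h2 : j ≤ S'.card) :
    ∃ S'' : Finset W, R.Closed S'' ∧ S ⊆ S'' ∧ S'' ⊆ S' ∧ S''.card = j := by
  obtain ⟨i, rfl⟩ := Nat.exists_eq_add_of_le h1
  clear h1
  induction i with
  | zero => exact ⟨S, hS, subset_rfl, h, rfl⟩
  | succ i ih =>
    obtain ⟨S'', hc, hs1, hs2, hcard⟩ := ih (by omega)
    have hns : ¬ S' ⊆ S'' := by
      intro hcon
      have := Finset.card_le_card hcon
      omega
    obtain ⟨x, hx, hxn, hp⟩ := Closed.next R hc hS' hns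
    refine ⟨Insert.insert x S'', Closed.insert R hc hp, hs1.trans (Finset.subset_insert _ _), ?_, ?_⟩
    · intro y hy
      rcases Finset.mem_insert.1 hy with h | h
      · rw [h]; exact hx
      · exact hs2 h
    · rw [Finset.card_insert_of_notMem hxn, hcard]
      ring

/-- A vertex of the list outside the used set. -/
theorem Lists.adj {D : Digraph V} {d : ℕ} (Ls : Lists D d) {σ : Bool} {y z : V}
    (h : z ∈ Ls.L σ y) : (σ = true → D.Adj y z) ∧ (σ = false → D.Adj z y) := by
  constructor
  · rintro rfl; exact Ls.out _ _ h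
  · rintro rfl; exact Ls.inn _ _ h

/-- Placing the next vertex at a vertex of the list. -/
theorem Emb.extend_list [DecidableEq V] [DecidableEq W] {T : Digraph W} {D : Digraph V}
    (hT : IsOrientedGraph T) {d : ℕ} (Ls : Lists D d) {r : W} (R : Rooted T r) {S : Finset W}
    (hS : R.Closed S) {φ : W → V} (hφ : Emb T D S φ) {x : W} (hx : x ∉ S) (hp : R.par x ∈ S)
    {z : V} (hz : z ∈ Ls.L (R.sg x) (φ (R.par x))) (hzU : z ∉ S.image φ) :
    Emb T D (insert x S) (Function.update φ x z) :=
  Emb.extend hT R hS hφ hx hp (fun _ ha h => hzU (h ▸ Finset.mem_image_of_mem φ ha))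
    (Ls.adj hz).1 (Ls.adj hz).2

/-- U3. Greedy extension. -/
theorem greedy [DecidableEq W] {T : Digraph W} {D : Digraph V} (hT : IsOrientedGraph T)
    (hD : Loopless D) {d : ℕ} (Ls : Lists D d) {r : W} (R : Rooted T r) {S S' : Finset W}
    (hS : R.Closed S) (hS' : R.Closed S') (h : S ⊆ S') (hc : S'.card ≤ d + 1) {φ : W → V}
    (hφ : Emb T D S φ) : ∃ φ' : W → V, Emb T D S' φ' ∧ ∀ x ∈ S, φ' x = φ x := by
  classical
  obtain ⟨i, hi⟩ := Nat.exists_eq_add_of_le (Finset.card_le_card h)
  induction i generalizing S φ with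
  | zero =>
    have : S = S' := Finset.eq_of_subset_of_card_le h (by omega)
    subst this
    exact ⟨φ, hφ, fun _ _ => rfl⟩
  | succ i ih =>
    have hns : ¬ S' ⊆ S := by
      intro hcon
      have := Finset.card_le_card hcon
      omega
    obtain ⟨x, hx, hxn, hp⟩ := Closed.next R hS hS' hns
    -- a free vertex
    have hfree : ∃ z ∈ Ls.L (R.sg x) (φ (R.par x)), z ∉ S.image φ := by
      by_contra hcon
      push Not at hcon
      have h1 : Ls.L (R.sg x) (φ (R.par x)) ⊆ (S.image φ).erase (φ (R.par x)) := by
        intro z hz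
        rw [Finset.mem_erase]
        refine ⟨?_, hcon z hz⟩
        rintro rfl
        rcases Bool.eq_false_or_eq_true (R.sg x) with h2 | h2
        · exact hD _ ((Ls.adj hz).1 h2)
        · exact hD _ ((Ls.adj hz).2 h2)
      have h2 := Finset.card_le_card h1
      rw [Ls.card_L, Finset.card_erase_of_mem (Finset.mem_image_of_mem φ hp)] at h2
      have h3 : (S.image φ).card ≤ S.card := Finset.card_image_le
      have h4 : 0 < S.card := Finset.card_pos.2 ⟨_, hp⟩
      omega
    obtain ⟨z, hz, hzU⟩ := hfree
    have hφ' := Emb.extend_list hT Ls R hS hφ hxn hp hz hzU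
    obtain ⟨φ'', h1, h2⟩ := ih (Closed.insert R hS hp) (by
      intro y hy
      rcases Finset.mem_insert.1 hy with h' | h'
      · rw [h']; exact hx
      · exact h h') hφ' (by rw [Finset.card_insert_of_notMem hxn]; omega)
    refine ⟨φ'', h1, fun y hy => ?_⟩
    rw [h2 y (Finset.mem_insert_of_mem hy)]
    apply Function.update_of_ne
    rintro rfl
    exact hxn hy

end Pool.Agent.Lib.MP_47458b_co.Up
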