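import Pool.Agent.Lib.MP_47458b_co.Up.Defs

/-! Counting facts for the oriented upper bound (pieces U10, U11a, U11b, U12). -/

namespace Pool.Agent.Lib.MP_47458b_co.Up

open Finset

variable {V W : Type}

/-- The neighbour of a leaf of a tree with at least three vertices is not a leaf. -/
private theorem nbr_leaf [Fintype W] {k : ℕ} {T : Digraph W} (hT : IsOrientedTree k T)
    (hk : 2 ≤ k) {x y : W} (hx : IsLeaf T x) (hxy : Nbr T x y) : ¬ IsLeaf T y := by
  classical
  intro hy
  obtain ⟨⟨hl, _⟩, ht, hc⟩ := hT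
  have hyx : Nbr T y x := hxy.symm
  have key : ∀ w, T.toSimpleGraphInclusive.Reachable x w → w = x ∨ w = y := by
    intro w hw
    rw [SimpleGraph.reachable_iff_reflTransGen] at hw
    induction hw with
    | refl => exact Or.inl rfl
    | @tail b c _ hbc ih =>
      have hbc' : Nbr T b c := hbc.2
      rcases ih with ih | ih
      · rw [ih] at hbc'
        exact Or.inr (hx.unique hbc' hxy)
      · rw [ih] at hbc'
        exact Or.inl (hy.unique hbc' hyx)
  have hall : ∀ w, w = x ∨ w = y := fun w => key w (ht.connected.preconnected x w)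
  have h1 : (univ : Finset W) ⊆ {x, y} := by
    intro w _
    rw [mem_insert, mem_singleton]
    exact hall w
  have h2 := card_le_card h1
  rw [card_univ, ← Nat.card_eq_fintype_card, hc] at h2
  have h3 : ({x, y} : Finset W).card ≤ 2 := card_le_two
  omega

/-- U10. If every vertex has fewer than `m` leaf neighbours, there are at least `(k + 1) / m`
internal vertices. -/
theorem card_internal [Fintype W] [DecidableEq W] {k : ℕ} {T : Digraph W}
    (hT : IsOrientedTree k T) (hk : 2 ≤ k) (m : ℕ)
    (h : ∀ (t : W) (Lf : Finset W), (∀ x ∈ Lf, IsLeaf T x ∧ Nbr T x t) → Lf.card < m)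
    (I : Finset W) (hI : ∀ x, x ∈ I ↔ ¬ IsLeaf T x) : k + 1 ≤ m * I.card := by
  classical
  have hc : Fintype.card W = k + 1 := by rw [← Nat.card_eq_fintype_card]; exact hT.2.2
  have hne : Nonempty W := hT.2.1.connected.nonempty
  have hm : 0 < m := by
    have := h hne.some ∅ (by simp)
    simpa using this
  have hleaf : ∀ x, x ∉ I → ∃ y, IsLeaf T x ∧ Nbr T x y := by
    intro x hx
    have h1 : IsLeaf T x := by
      by_contra hcon
      exact hx ((hI x).2 hcon)
    obtain ⟨y, hy, _⟩ := h1
    exact ⟨y, ⟨y, hy, by assumption⟩, hy⟩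
  choose! ν hν using hleaf
  have h1 : ∀ x ∈ univ \ I, ν x ∈ I := by
    intro x hx
    have h2 := hν x (mem_sdiff.1 hx).2
    exact (hI _).2 (nbr_leaf hT hk h2.1 h2.2)
  have h2 := card_le_mul_card_image_of_maps_to h1 (m - 1) (by
    intro b _
    have h3 := h b ((univ \ I).filter fun a => ν a = b) (by
      intro x hx
      rw [mem_filter] at hx
      have h4 := hν x (mem_sdiff.1 hx.1).2
      rw [hx.2] at h4
      exact h4)
    omega)
  have h3 : (univ \ I).card + I.card = k + 1 := by
    rw [card_sdiff_add_card_eq_card (subset_univ I), card_univ, hc]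
  obtain ⟨m', rfl⟩ := Nat.exists_eq_add_of_le' hm
  rw [Nat.add_sub_cancel] at h2
  have h4 : (m' + 1) * I.card = m' * I.card + I.card := by ring
  rw [h4]
  omega

private theorem card_step [DecidableEq V] {D : Digraph V} {d : ℕ} (Ls : Lists D d)
    (Z : Finset V) : (step Ls Z).card ≤ (2 * d + 1) * Z.card := by
  have h1 : ∀ σ, (Z.biUnion (Ls.L σ)).card ≤ Z.card * d := fun σ =>
    card_biUnion_le_card_mul _ _ _ fun y _ => (Ls.card_L σ y).le
  unfold step
  have h2 := card_union_le Z (Z.biUnion (Ls.L true) ∪ Z.biUnion (Ls.L false))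
  have h3 := card_union_le (Z.biUnion (Ls.L true)) (Z.biUnion (Ls.L false))
  have h4 := h1 true
  have h5 := h1 false
  nlinarith

private theorem card_reach [DecidableEq V] {D : Digraph V} {d : ℕ} (Ls : Lists D d) (h : ℕ) :
    ∀ Z : Finset V, (reach Ls h Z).card ≤ (2 * d + 1) ^ h * Z.card := by
  induction h with
  | zero => intro Z; simp [reach]
  | succ h ih =>
    intro Z
    show (reach Ls h (step Ls Z)).card ≤ _
    calc _ ≤ (2 * d + 1) ^ h * (step Ls Z).card := ih _
      _ ≤ (2 * d + 1) ^ h * ((2 * d + 1) * Z.card) := Nat.mul_le_mul_left _ (card_step Ls Z)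
      _ = (2 * d + 1) ^ (h + 1) * Z.card := by ring

/-- U11a. Sizes of the sets of lists. -/
theorem card_listsOf_reach [DecidableEq V] {D : Digraph V} {d : ℕ} (Ls : Lists D d) (h : ℕ)
    (Z : Finset V) : (listsOf Ls (reach Ls h Z)).card ≤ 2 * (2 * d + 1) ^ h * Z.card := by
  unfold listsOf
  have h1 := card_union_le ((reach Ls h Z).image (Ls.L true)) ((reach Ls h Z).image (Ls.L false))
  have h2 : ((reach Ls h Z).image (Ls.L true)).card ≤ (reach Ls h Z).card := card_image_le
  have h3 : ((reach Ls h Z).image (Ls.L false)).card ≤ (reach Ls h Z).card := card_image_le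
  have h4 := card_reach Ls h Z
  have h5 : 2 * (2 * d + 1) ^ h * Z.card = 2 * ((2 * d + 1) ^ h * Z.card) := by ring
  rw [h5]
  omega

private theorem pot_nonneg [DecidableEq V] (m : ℕ) (U M : Finset V) : 0 ≤ pot m U M := by
  unfold pot
  split_ifs
  · positivity
  · exact le_rfl

private theorem pot_le_one [DecidableEq V] (m : ℕ) (U M : Finset V) : pot m U M ≤ 1 := by
  unfold pot
  split_ifs
  · exact pow_le_one₀ (by norm_num) (by norm_num)
  · exact zero_le_one

/-- U11b. Small total potential means that every set is safe. -/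
theorem safe_of_pot [DecidableEq V] {m n a : ℕ} {U U₁ : Finset V} {J : Finset (Finset V)}
    (hJ : J.card < 2 ^ a) (hn : 89 * (a + m) ≤ n)
    (h : ∑ M ∈ J, pot m U M ≤ (127 / 128) ^ n * ∑ M ∈ J, pot m U₁ M) :
    ∀ M ∈ J, m < (U \ M).card := by
  intro M hM
  by_contra hc
  push Not at hc
  have h1 : (1 / 2 : ℝ) ^ m ≤ pot m U M := by
    unfold pot
    rw [if_pos hc]
    exact pow_le_pow_of_le_one (by norm_num) (by norm_num) hc
  have h2 : pot m U M ≤ ∑ M ∈ J, pot m U M :=
    single_le_sum (fun M _ => pot_nonneg m U M) hM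
  have h3 : ∑ M ∈ J, pot m U₁ M ≤ J.card := by
    calc _ ≤ ∑ _M ∈ J, (1 : ℝ) := sum_le_sum fun M _ => pot_le_one m U₁ M
      _ = J.card := by simp
  have h4 : (127 / 128 : ℝ) ^ n ≤ (1 / 2) ^ (a + m) := by
    calc (127 / 128 : ℝ) ^ n ≤ (127 / 128) ^ (89 * (a + m)) :=
          pow_le_pow_of_le_one (by norm_num) (by norm_num) hn
      _ = ((127 / 128) ^ 89) ^ (a + m) := pow_mul _ _ _
      _ ≤ (1 / 2) ^ (a + m) := pow_le_pow_left₀ (by positivity) (by norm_num) _
  have h5 : (J.card : ℝ) < 2 ^ a := by exact_mod_cast hJ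
  have h6 : (127 / 128 : ℝ) ^ n * ∑ M ∈ J, pot m U₁ M ≤ (1 / 2) ^ (a + m) * J.card :=
    mul_le_mul h4 h3 (sum_nonneg fun M _ => pot_nonneg m U₁ M) (by positivity)
  have h7 : (1 / 2 : ℝ) ^ (a + m) * J.card < (1 / 2) ^ (a + m) * 2 ^ a :=
    mul_lt_mul_of_pos_left h5 (by positivity)
  have h8 : (1 / 2 : ℝ) ^ (a + m) * 2 ^ a = (1 / 2) ^ m := by
    rw [pow_add, mul_right_comm, ← mul_pow]
    norm_num
  linarith

/-- U12. Existence of lists. -/
theorem exists_lists [Finite V] {D : Digraph V} {d : ℕ} (h : ∀ x, d ≤ outDeg D x ∧ d ≤ inDeg D x) :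
    Nonempty (Lists D d) := by
  classical
  have := Fintype.ofFinite V
  have h1 : ∀ y, ∃ t : Finset V, t.card = d ∧ ∀ z ∈ t, D.Adj y z := by
    intro y
    have h2 : d ≤ (univ.filter fun z => D.Adj y z).card := by
      have h3 := (h y).1
      unfold outDeg at h3
      rw [Set.ncard_eq_toFinset_card'] at h3
      simpa using h3
    obtain ⟨t, ht, htc⟩ := exists_subset_card_eq h2
    exact ⟨t, htc, fun z hz => (mem_filter.1 (ht hz)).2⟩
  have h1' : ∀ y, ∃ t : Finset V, t.card = d ∧ ∀ z ∈ t, D.Adj z y := by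
    intro y
    have h2 : d ≤ (univ.filter fun z => D.Adj z y).card := by
      have h3 := (h y).2
      unfold inDeg at h3
      rw [Set.ncard_eq_toFinset_card'] at h3
      simpa using h3
    obtain ⟨t, ht, htc⟩ := exists_subset_card_eq h2
    exact ⟨t, htc, fun z hz => (mem_filter.1 (ht hz)).2⟩
  choose f hf using h1
  choose g hg using h1'
  exact ⟨{
    L := fun σ y => if σ = true then f y else g y
    card_L := by
      intro σ y
      cases σ
      · simpa using (hg y).1
      · simpa using (hf y).1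
    out := by
      intro y z hz
      exact (hf y).2 z (by simpa using hz)
    inn := by
      intro y z hz
      exact (hg y).2 z (by simpa using hz) }⟩

end Pool.Agent.Lib.MP_47458b_co.Up
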