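import Pool.Agent.Lib.MP_47458b_co.Defs

/-!
Definitions for the upper bound `f(k) ≤ k - c √k` for oriented graphs.
-/

namespace Pool.Agent.Lib.MP_47458b_co.Up

open Finset

variable {V W : Type}

/-- A rooted description of an oriented tree: parent function and depth function. -/
structure Rooted (T : Digraph W) (r : W) where
  par : W → W
  dep : W → ℕ
  adj_par : ∀ x, x ≠ r → T.Adj (par x) x ∨ T.Adj x (par x)
  dep_par : ∀ x, x ≠ r → dep (par x) < dep x
  edge : ∀ a b, T.Adj a b → (a ≠ r ∧ par a = b) ∨ (b ≠ r ∧ par b = a)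

/-- Direction of the edge from the parent of `x` to `x`: `true` if it points to `x`. -/
noncomputable def Rooted.sg {T : Digraph W} {r : W} (R : Rooted T r) (x : W) : Bool :=
  open Classical in decide (T.Adj (R.par x) x)

/-- Sets containing the root and closed under parents. -/
def Rooted.Closed {T : Digraph W} {r : W} (R : Rooted T r) (S : Finset W) : Prop :=
  r ∈ S ∧ ∀ x ∈ S, x ≠ r → R.par x ∈ S

/-- `φ` embeds the subdigraph of `T` induced by `S` into `D`. -/
def Emb (T : Digraph W) (D : Digraph V) (S : Finset W) (φ : W → V) : Prop :=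
  Set.InjOn φ S ∧ ∀ a ∈ S, ∀ b ∈ S, T.Adj a b → D.Adj (φ a) (φ b)

/-- Lists of `d` outneighbours (`L true`) and `d` inneighbours (`L false`) of every vertex. -/
structure Lists (D : Digraph V) (d : ℕ) where
  L : Bool → V → Finset V
  card_L : ∀ σ y, (L σ y).card = d
  out : ∀ y z, z ∈ L true y → D.Adj y z
  inn : ∀ y z, z ∈ L false y → D.Adj z y

/-- The potential of the set `M` when the set `U` is used. -/
noncomputable def pot [DecidableEq V] (m : ℕ) (U M : Finset V) : ℝ :=
  if (U \ M).card ≤ m then (1 / 2 : ℝ) ^ ((U \ M).card) else 0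

/-- One step along the lists. -/
def step [DecidableEq V] {D : Digraph V} {d : ℕ} (Ls : Lists D d) (Z : Finset V) : Finset V :=
  Z ∪ (Z.biUnion (Ls.L true) ∪ Z.biUnion (Ls.L false))

/-- `h` steps along the lists. -/
def reach [DecidableEq V] {D : Digraph V} {d : ℕ} (Ls : Lists D d) : ℕ → Finset V → Finset V
  | 0, Z => Z
  | h + 1, Z => reach Ls h (step Ls Z)

/-- All lists of the vertices of `Z`. -/
def listsOf [DecidableEq V] {D : Digraph V} {d : ℕ} (Ls : Lists D d) (Z : Finset V) :
    Finset (Finset V) :=
  Z.image (Ls.L true) ∪ Z.image (Ls.L false)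

/-- Two vertices joined by an arc in some direction. -/
def Nbr (T : Digraph W) (x y : W) : Prop := T.Adj x y ∨ T.Adj y x

/-- Leaves: vertices with exactly one neighbour. -/
def IsLeaf (T : Digraph W) (x : W) : Prop := ∃! y, Nbr T x y

end Pool.Agent.Lib.MP_47458b_co.Up
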