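import Pool.Agent.Lib.MP_47458b_co.Up.Tree

/-! The last stage: the missing vertices are placed on safe lists. -/

namespace Pool.Agent.Lib.MP_47458b_co.Up

open Finset

variable {V W : Type}

/-- A safe list has a free vertex. -/
theorem exists_free [DecidableEq V] {d m k : ℕ} (hk : d + m = k) {U M : Finset V}
    (hM : M.card = d) (hU : U.card ≤ k) (hsafe : m < (U \ M).card) : ∃ z ∈ M, z ∉ U := by
  by_contra hcon
  push Not at hcon
  have h1 : M ⊆ U := hcon
  have h2 := Finset.card_sdiff_add_card_eq_card h1
  omega

theorem contains_of_emb [Fintype W] {T : Digraph W} {D : Digraph V} {φ : W → V}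
    (hφ : Emb T D univ φ) : Contains D T := by
  refine ⟨φ, ?_, fun a b hab => hφ.2 a (Finset.mem_univ _) b (Finset.mem_univ _) hab⟩
  intro a b hab
  exact hφ.1 (Finset.mem_coe.2 (Finset.mem_univ a)) (Finset.mem_coe.2 (Finset.mem_univ b)) hab

theorem closed_univ [Fintype W] {T : Digraph W} {r : W} (R : Rooted T r) :
    R.Closed (univ : Finset W) :=
  ⟨Finset.mem_univ _, fun _ _ _ => Finset.mem_univ _⟩

/-- U7b. Last stage, general version. -/
theorem final_deep [DecidableEq V] [DecidableEq W] [Fintype W] {T : Digraph W} {D : Digraph V}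
    (hT : IsOrientedGraph T) {d m k : ℕ} (hk : d + m = k) (hW : Fintype.card W = k + 1)
    (Ls : Lists D d) {r : W} (R : Rooted T r) {S : Finset W} (hS : R.Closed S) {φ : W → V}
    (hφ : Emb T D S φ) (Z : Finset V) (hZ : ∀ x, x ∉ S → R.par x ∈ S → φ (R.par x) ∈ Z) (h : ℕ)
    (hh : (univ \ S).card ≤ h + 1)
    (hsafe : ∀ M ∈ listsOf Ls (reach Ls h Z), m < (S.image φ \ M).card) :
    Contains D T := by
  have hstep : ∀ (Z : Finset V) (h : ℕ), Z ⊆ reach Ls h Z := by
    intro Z h
    induction h generalizing Z with
    | zero => exact subset_rfl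
    | succ h ih => exact Finset.subset_union_left.trans (ih _)
  induction h generalizing S φ Z with
  | zero =>
    by_cases hns : (univ : Finset W) ⊆ S
    · have : S = univ := Finset.eq_univ_of_forall fun x => hns (Finset.mem_univ x)
      subst this
      exact contains_of_emb hφ
    obtain ⟨x, -, hxn, hp⟩ := Closed.next R hS (closed_univ R) hns
    have hle : (S.image φ).card ≤ k := by
      have h1 : (S.image φ).card ≤ S.card := Finset.card_image_le
      have h2 : S.card < Fintype.card W := Finset.card_lt_univ_of_notMem hxn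
      omega
    have hmem : Ls.L (R.sg x) (φ (R.par x)) ∈ listsOf Ls (reach Ls 0 Z) := by
      have h1 := hZ x hxn hp
      rw [reach, listsOf, Finset.mem_union]
      rcases Bool.eq_false_or_eq_true (R.sg x) with h2 | h2
      · rw [h2]; exact Or.inl (Finset.mem_image_of_mem _ h1)
      · rw [h2]; exact Or.inr (Finset.mem_image_of_mem _ h1)
    obtain ⟨z, hz, hzU⟩ := exists_free hk (Ls.card_L _ _) hle (hsafe _ hmem)
    have hφ' := Emb.extend_list hT Ls R hS hφ hxn hp hz hzU
    have hu : Insert.insert x S = univ := by
      rw [← Finset.card_eq_iff_eq_univ, Finset.card_insert_of_notMem hxn]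
      have h1 := Finset.card_sdiff_add_card_eq_card (Finset.subset_univ S)
      have h2 : 0 < (univ \ S).card :=
        Finset.card_pos.2 ⟨x, Finset.mem_sdiff.2 ⟨Finset.mem_univ _, hxn⟩⟩
      rw [Finset.card_univ] at h1
      omega
    rw [hu] at hφ'
    exact contains_of_emb hφ'
  | succ h ih =>
    by_cases hns : (univ : Finset W) ⊆ S
    · have : S = univ := Finset.eq_univ_of_forall fun x => hns (Finset.mem_univ x)
      subst this
      exact contains_of_emb hφ
    obtain ⟨x, -, hxn, hp⟩ := Closed.next R hS (closed_univ R) hns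
    have hle : (S.image φ).card ≤ k := by
      have h1 : (S.image φ).card ≤ S.card := Finset.card_image_le
      have h2 : S.card < Fintype.card W := Finset.card_lt_univ_of_notMem hxn
      omega
    have h1 := hZ x hxn hp
    have h1' : φ (R.par x) ∈ reach Ls (h + 1) Z := hstep _ _ h1
    have hmem : Ls.L (R.sg x) (φ (R.par x)) ∈ listsOf Ls (reach Ls (h + 1) Z) := by
      rw [listsOf, Finset.mem_union]
      rcases Bool.eq_false_or_eq_true (R.sg x) with h2 | h2
      · rw [h2]; exact Or.inl (Finset.mem_image_of_mem _ h1')
      · rw [h2]; exact Or.inr (Finset.mem_image_of_mem _ h1')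
    obtain ⟨z, hz, hzU⟩ := exists_free hk (Ls.card_L _ _) hle (hsafe _ hmem)
    have hφ' := Emb.extend_list hT Ls R hS hφ hxn hp hz hzU
    have hval : ∀ a ∈ S, Function.update φ x z a = φ a := by
      intro a ha
      apply Function.update_of_ne
      rintro rfl
      exact hxn ha
    have hzs : z ∈ step Ls Z := by
      rw [step, Finset.mem_union, Finset.mem_union, Finset.mem_biUnion, Finset.mem_biUnion]
      right
      rcases Bool.eq_false_or_eq_true (R.sg x) with h2 | h2
      · left; exact ⟨_, h1, h2 ▸ hz⟩
      · right; exact ⟨_, h1, h2 ▸ hz⟩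
    refine ih (Closed.insert R hS hp) hφ' (step Ls Z) ?_ ?_ ?_
    · intro y hy hpy
      rcases Finset.mem_insert.1 hpy with h2 | h2
      · rw [h2, Function.update_self]; exact hzs
      · rw [hval _ h2]
        exact Finset.mem_union_left _ (hZ y (fun h => hy (Finset.mem_insert_of_mem h)) h2)
    · have h2 : (univ \ Insert.insert x S).card < (univ \ S).card := by
        apply Finset.card_lt_card
        rw [Finset.ssubset_iff_of_subset
          (Finset.sdiff_subset_sdiff subset_rfl (Finset.subset_insert _ _))]
        exact ⟨x, Finset.mem_sdiff.2 ⟨Finset.mem_univ _, hxn⟩, fun h =>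
          (Finset.mem_sdiff.1 h).2 (Finset.mem_insert_self _ _)⟩
      omega
    · intro M hM
      refine (hsafe M hM).trans_le (Finset.card_le_card (Finset.sdiff_subset_sdiff ?_ subset_rfl))
      intro w hw
      obtain ⟨a, ha, rfl⟩ := Finset.mem_image.1 hw
      rw [← hval a ha]
      exact Finset.mem_image_of_mem _ (Finset.mem_insert_of_mem ha)

/-- U7a. Last stage, all missing vertices have their parents in `S`. -/
theorem final_leaf [DecidableEq V] [DecidableEq W] [Fintype W] {T : Digraph W} {D : Digraph V}
    (hT : IsOrientedGraph T) {d m k : ℕ} (hk : d + m = k) (hW : Fintype.card W = k + 1)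
    (Ls : Lists D d) {r : W} (R : Rooted T r) {S : Finset W} (hS : R.Closed S) {φ : W → V}
    (hφ : Emb T D S φ) (hpar : ∀ x, x ∉ S → R.par x ∈ S)
    (hsafe : ∀ x, x ∉ S → m < (S.image φ \ Ls.L (R.sg x) (φ (R.par x))).card) :
    Contains D T := by
  -- induction over larger sets
  have key : ∀ (i : ℕ) (S' : Finset W) (φ' : W → V), R.Closed S' → S ⊆ S' → Emb T D S' φ' →
      (∀ a ∈ S, φ' a = φ a) → (univ \ S').card ≤ i → Contains D T := by
    intro i
    induction i with
    | zero =>
      intro S' φ' hS' hSS' hφ' hag hi
      have h1 : univ \ S' = ∅ := Finset.card_eq_zero.1 (by omega)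
      have h2 : S' = univ :=
        Finset.eq_univ_of_forall fun x => (Finset.sdiff_eq_empty_iff_subset.1 h1) (Finset.mem_univ x)
      subst h2
      exact contains_of_emb hφ'
    | succ i ih =>
      intro S' φ' hS' hSS' hφ' hag hi
      by_cases hns : (univ : Finset W) ⊆ S'
      · have : S' = univ := Finset.eq_univ_of_forall fun x => hns (Finset.mem_univ x)
        subst this
        exact contains_of_emb hφ'
      obtain ⟨x, -, hxn, hp⟩ := Closed.next R hS' (closed_univ R) hns
      have hxS : x ∉ S := fun h => hxn (hSS' h)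
      have hle : (S'.image φ').card ≤ k := by
        have h1 : (S'.image φ').card ≤ S'.card := Finset.card_image_le
        have h2 : S'.card < Fintype.card W := Finset.card_lt_univ_of_notMem hxn
        omega
      have hpS : R.par x ∈ S := hpar x hxS
      have hsafe' : m < (S'.image φ' \ Ls.L (R.sg x) (φ' (R.par x))).card := by
        rw [hag _ hpS]
        refine (hsafe x hxS).trans_le (Finset.card_le_card (Finset.sdiff_subset_sdiff ?_ subset_rfl))
        intro w hw
        obtain ⟨a, ha, rfl⟩ := Finset.mem_image.1 hw
        rw [← hag a ha]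
        exact Finset.mem_image_of_mem _ (hSS' ha)
      obtain ⟨z, hz, hzU⟩ := exists_free hk (Ls.card_L _ _) hle hsafe'
      have hφ'' := Emb.extend_list hT Ls R hS' hφ' hxn hp hz hzU
      refine ih (Insert.insert x S') (Function.update φ' x z) (Closed.insert R hS' hp)
        (hSS'.trans (Finset.subset_insert _ _)) hφ'' ?_ ?_
      · intro a ha
        rw [Function.update_of_ne]
        · exact hag a ha
        · rintro rfl
          exact hxS ha
      · have h2 : (univ \ Insert.insert x S').card < (univ \ S').card := by
          apply Finset.card_lt_card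
          rw [Finset.ssubset_iff_of_subset
            (Finset.sdiff_subset_sdiff subset_rfl (Finset.subset_insert _ _))]
          exact ⟨x, Finset.mem_sdiff.2 ⟨Finset.mem_univ _, hxn⟩, fun h =>
            (Finset.mem_sdiff.1 h).2 (Finset.mem_insert_self _ _)⟩
        omega
  exact key _ S φ hS subset_rfl hφ (fun _ _ => rfl) le_rfl

end Pool.Agent.Lib.MP_47458b_co.Up
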