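import Pool.Agent.Lib.MP_47458b_co.Up.Final

/-! Trees with a vertex that has many leaf neighbours. -/

namespace Pool.Agent.Lib.MP_47458b_co.Up

open Finset

variable {V W : Type}

theorem Nbr.symm' {T : Digraph W} {x y : W} (h : Nbr T x y) : Nbr T y x := Or.symm h

theorem Rooted.nbr_par {T : Digraph W} {r : W} (R : Rooted T r) {x : W} (hx : x ≠ r) :
    Nbr T x (R.par x) := (R.adj_par x hx).symm

theorem singleton_closed {T : Digraph W} {r : W} (R : Rooted T r) : R.Closed {r} := by
  refine ⟨Finset.mem_singleton_self r, ?_⟩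
  intro x hx hxc
  exact absurd (Finset.mem_singleton.1 hx) hxc

theorem singleton_emb {T : Digraph W} (hT : IsOrientedGraph T) {D : Digraph V} (r : W) (v : V) :
    Emb T D {r} (fun _ => v) := by
  refine ⟨by simp, ?_⟩
  intro a ha b hb hab
  rw [Finset.mem_singleton] at ha hb
  subst ha; subst hb
  exact absurd hab (hT.1 _)

/-- U8. A vertex of `T` with many leaf neighbours. -/
theorem leafy [Finite V] [DecidableEq W] [Fintype W] {T : Digraph W} {D : Digraph V} {k d m : ℕ}
    (hT : IsOrientedTree k T) (hD : Loopless D) (hk : d + m = k) (Ls : Lists D d) {v : V}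
    (hv : k ≤ outDeg D v ∧ k ≤ inDeg D v) (t : W) (Lf : Finset W)
    (hLf : ∀ x ∈ Lf, IsLeaf T x ∧ Nbr T x t) (hm : m ≤ Lf.card) (_hk2 : 2 ≤ k) :
    Contains D T := by
  classical
  have hW : Fintype.card W = k + 1 := by rw [← Nat.card_eq_fintype_card]; exact hT.2.2
  obtain ⟨R⟩ := exists_rooted hT t
  obtain ⟨Rm, hRm, hRmc⟩ := Finset.exists_subset_card_eq hm
  have hnt : ∀ x ∈ Rm, x ≠ t := by
    rintro x hx rfl
    rcases (hLf x (hRm hx)).2 with h | h <;> exact hT.1.1 _ h
  have hpar : ∀ x ∈ Rm, R.par x = t := by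
    intro x hx
    obtain ⟨⟨y, -, hy⟩, h2⟩ := hLf x (hRm hx)
    rw [hy _ (R.nbr_par (hnt x hx)), hy _ h2]
  set S := univ \ Rm with hSdef
  have htS : t ∈ S := Finset.mem_sdiff.2 ⟨Finset.mem_univ _, fun h => hnt t h rfl⟩
  have hS : R.Closed S := by
    refine ⟨htS, ?_⟩
    intro x _ hxt
    rw [hSdef, Finset.mem_sdiff]
    refine ⟨Finset.mem_univ _, fun h => ?_⟩
    obtain ⟨⟨y, -, hy⟩, h2⟩ := hLf _ (hRm h)
    have h3 : t = y := hy _ h2
    have h4 : x = y := hy _ (R.nbr_par hxt).symm'
    exact hxt (h4.trans h3.symm)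
  have hScard : S.card = d + 1 := by
    rw [hSdef, Finset.card_sdiff_of_subset (Finset.subset_univ _), hRmc, Finset.card_univ, hW]
    omega
  obtain ⟨φ, hφ, hag⟩ := greedy hT.1 hD Ls R (singleton_closed R) hS
    (by intro x hx; rw [Finset.mem_singleton] at hx; rw [hx]; exact htS) hScard.le
    (singleton_emb hT.1 (D := D) t v)
  have hφt : φ t = v := hag t (Finset.mem_singleton_self t)
  have key : ∀ (i : ℕ) (S' : Finset W) (φ' : W → V), R.Closed S' → S ⊆ S' → Emb T D S' φ' →
      φ' t = v → (univ \ S').card ≤ i → Contains D T := by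
    intro i
    induction i with
    | zero =>
      intro S' φ' hS' hSS' hφ' hag hi
      have h1 : univ \ S' = ∅ := Finset.card_eq_zero.1 (by omega)
      have h2 : S' = univ :=
        Finset.eq_univ_of_forall fun x => (Finset.sdiff_eq_empty_iff_subset.1 h1) (Finset.mem_univ x)
      subst h2
      exact contains_of_emb hφ'
    | succ i ih =>
      intro S' φ' hS' hSS' hφ' hag hi
      by_cases hns : (univ : Finset W) ⊆ S'
      · have : S' = univ := Finset.eq_univ_of_forall fun x => hns (Finset.mem_univ x)
        subst this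
        exact contains_of_emb hφ'
      obtain ⟨x, -, hxn, hp⟩ := Closed.next R hS' (closed_univ R) hns
      have hxR : x ∈ Rm := by
        by_contra h
        exact hxn (hSS' (Finset.mem_sdiff.2 ⟨Finset.mem_univ _, h⟩))
      have hpx : R.par x = t := hpar x hxR
      have hle : (S'.image φ').card ≤ k := by
        have h1 : (S'.image φ').card ≤ S'.card := Finset.card_image_le
        have h2 : S'.card < Fintype.card W := Finset.card_lt_univ_of_notMem hxn
        omega
      have hvU : v ∈ S'.image φ' := by
        rw [← hag]; exact Finset.mem_image_of_mem _ (hSS' htS)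
      have hfree : ∀ P : V → Prop, (¬ P v) → k ≤ Set.ncard {z | P z} →
          ∃ z, P z ∧ z ∉ S'.image φ' := by
        intro P hPv hPk
        by_contra hcon
        push Not at hcon
        have h1 : {z | P z} ⊆ ((S'.image φ').erase v : Finset V) := by
          intro z hz
          rw [Finset.mem_coe, Finset.mem_erase]
          exact ⟨fun h => hPv (h ▸ hz), hcon z hz⟩
        have h2 := Set.ncard_le_ncard h1 (Finset.finite_toSet _)
        rw [Set.ncard_coe_finset, Finset.card_erase_of_mem hvU] at h2
        have h3 : 0 < (S'.image φ').card := Finset.card_pos.2 ⟨_, hvU⟩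
        omega
      have hz : ∃ z, z ∉ S'.image φ' ∧ (R.sg x = true → D.Adj (φ' (R.par x)) z) ∧
          (R.sg x = false → D.Adj z (φ' (R.par x))) := by
        rw [hpx, hag]
        rcases Bool.eq_false_or_eq_true (R.sg x) with h | h
        · obtain ⟨z, hz1, hz2⟩ := hfree (fun z => D.Adj v z) (hD v) hv.1
          exact ⟨z, hz2, fun _ => hz1, fun h' => by rw [h] at h'; exact absurd h' (by simp)⟩
        · obtain ⟨z, hz1, hz2⟩ := hfree (fun z => D.Adj z v) (hD v) hv.2
          exact ⟨z, hz2, fun h' => by rw [h] at h'; exact absurd h' (by simp), fun _ => hz1⟩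
      obtain ⟨z, hzU, hz1, hz2⟩ := hz
      have hfresh : ∀ a ∈ S', φ' a ≠ z := by
        intro a ha h
        exact hzU (h ▸ Finset.mem_image_of_mem φ' ha)
      have hφ'' := Emb.extend hT.1 R hS' hφ' hxn hp hfresh hz1 hz2
      refine ih (Insert.insert x S') (Function.update φ' x z) (Closed.insert R hS' hp)
        (hSS'.trans (Finset.subset_insert _ _)) hφ'' ?_ ?_
      · rw [Function.update_of_ne (hnt x hxR).symm]
        exact hag
      · have h2 : (univ \ Insert.insert x S').card < (univ \ S').card := by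
          apply Finset.card_lt_card
          rw [Finset.ssubset_iff_of_subset
            (Finset.sdiff_subset_sdiff subset_rfl (Finset.subset_insert _ _))]
          exact ⟨x, Finset.mem_sdiff.2 ⟨Finset.mem_univ _, hxn⟩, fun h =>
            (Finset.mem_sdiff.1 h).2 (Finset.mem_insert_self _ _)⟩
        omega
  exact key _ S φ hS subset_rfl hφ hφt le_rfl

end Pool.Agent.Lib.MP_47458b_co.Up
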