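import Pool.Agent.Lib.MP_47458b_co.Up.Defs

/-! Numerical facts for the oriented upper bound (pieces U13, U14). -/

namespace Pool.Agent.Lib.MP_47458b_co.Up

private theorem num_pow {u : ℕ} (hu : 100 ≤ u) : 200 * (u + 1) ^ 2 + 1 ≤ 2 ^ u := by
  induction u, hu using Nat.le_induction with
  | base => norm_num
  | succ u hu ih =>
    have h1 : 200 * (u + 1 + 1) ^ 2 + 1 ≤ 2 * (200 * (u + 1) ^ 2 + 1) := by nlinarith
    calc _ ≤ 2 * (200 * (u + 1) ^ 2 + 1) := h1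
      _ ≤ 2 * 2 ^ u := Nat.mul_le_mul_left 2 ih
      _ = 2 ^ (u + 1) := by rw [pow_succ]; ring

/-- The basic numerical data: `s = √k`, `L = log₂ (2k + 1)`. -/
private theorem num_basic {k m : ℕ} (hm : 1 ≤ m) (hk : (1000 * m) ^ 2 ≤ k) :
    ∃ s L : ℕ, 1000 * m ≤ s ∧ s * s ≤ k ∧ 1000 * s ≤ k ∧ 10 * L ≤ s ∧ 2 * k + 1 < 2 ^ (L + 1) := by
  refine ⟨Nat.sqrt k, Nat.log 2 (2 * k + 1), ?_, Nat.sqrt_le k, ?_, ?_,
    Nat.lt_pow_succ_log_self (by norm_num) _⟩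
  · exact Nat.le_sqrt'.2 hk
  · have h1 : 1000 * m ≤ Nat.sqrt k := Nat.le_sqrt'.2 hk
    have h2 := Nat.sqrt_le k
    nlinarith
  · have h1 : 1000 * m ≤ Nat.sqrt k := Nat.le_sqrt'.2 hk
    have h3 : k < (Nat.sqrt k + 1) * (Nat.sqrt k + 1) := Nat.lt_succ_sqrt k
    set s := Nat.sqrt k with hs
    have hu : 100 ≤ s / 10 := by omega
    have h4 := num_pow hu
    have h5 : s + 1 ≤ 10 * (s / 10 + 1) := by omega
    have h6 : 2 * k + 1 < 2 ^ (s / 10 + 1) := by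
      have h7 : (s + 1) * (s + 1) ≤ (10 * (s / 10 + 1)) * (10 * (s / 10 + 1)) :=
        Nat.mul_le_mul h5 h5
      have h8 : 2 ^ (s / 10) ≤ 2 ^ (s / 10 + 1) := Nat.pow_le_pow_right (by norm_num) (by omega)
      nlinarith
    have h9 : Nat.log 2 (2 * k + 1) < s / 10 + 1 := Nat.log_lt_of_lt_pow (by omega) h6
    omega

/-- U13. Numerical fact for the leaf case. -/
theorem num_leaf {k m i : ℕ} (hm : 1 ≤ m) (hk : (1000 * m) ^ 2 ≤ k) (hi : k + 1 ≤ m * i)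
    (hi' : i ≤ k + 1) :
    ∃ a n : ℕ, 2 * (k + 1) < 2 ^ a ∧ 89 * (a + m) ≤ n ∧ 6 * n + 3 ≤ i ∧
      ∀ s : ℕ, 3 * s ≤ 2 * i + 6 → 4 * (s + 2 * n + m) ≤ 3 * k := by
  obtain ⟨s, L, h1, h2, h3, h4, h5⟩ := num_basic hm hk
  refine ⟨L + 2, 89 * (L + 2 + m), ?_, le_rfl, ?_, ?_⟩
  · rw [pow_succ]
    omega
  · by_contra hlt
    have h6 : i ≤ 1000 * s := by omega
    have h7 : m * i ≤ m * (1000 * s) := Nat.mul_le_mul_left m h6
    have h8 : m * (1000 * s) ≤ s * s := by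
      calc m * (1000 * s) = (1000 * m) * s := by ring
        _ ≤ s * s := Nat.mul_le_mul_right s h1
    omega
  · intro t ht
    omega

/-- U14. Numerical fact for the few leaves case. -/
theorem num_deep {k m i : ℕ} (hm : 1 ≤ m) (hk : (1000 * m) ^ 2 ≤ k) (hi : k + 1 ≤ i + 2 * m) :
    ∃ a n : ℕ, 2 * (2 * k + 1) ^ m * (k + 1) < 2 ^ a ∧ 89 * (a + m) ≤ n ∧ 6 * n + 3 ≤ i ∧
      ∀ s : ℕ, 2 * s ≤ k + 2 → 4 * (s + 2 * n + m) ≤ 3 * k := by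
  obtain ⟨s, L, h1, h2, h3, h4, h5⟩ := num_basic hm hk
  have hP : 2500 * ((m + 1) * (L + 1)) ≤ k := by
    have e1 : 500 * (m + 1) ≤ s := by omega
    have e2 : 5 * (L + 1) ≤ s := by omega
    calc 2500 * ((m + 1) * (L + 1)) = (500 * (m + 1)) * (5 * (L + 1)) := by ring
      _ ≤ s * s := Nat.mul_le_mul e1 e2
      _ ≤ k := h2
  refine ⟨(m + 1) * (L + 1) + 1, 89 * ((m + 1) * (L + 1) + 1 + m), ?_, le_rfl, ?_, ?_⟩
  · have e1 : 2 * (2 * k + 1) ^ m * (k + 1) ≤ 2 * (2 * k + 1) ^ (m + 1) := by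
      rw [pow_succ, mul_assoc]
      exact Nat.mul_le_mul_left 2 (Nat.mul_le_mul_left _ (by omega))
    have e2 : (2 * k + 1) ^ (m + 1) < (2 ^ (L + 1)) ^ (m + 1) :=
      Nat.pow_lt_pow_left h5 (by omega)
    rw [← pow_mul] at e2
    rw [pow_succ, mul_comm (m + 1) (L + 1)]
    omega
  · generalize (m + 1) * (L + 1) = P at hP
    omega
  · intro t ht
    generalize (m + 1) * (L + 1) = P at hP
    omega

end Pool.Agent.Lib.MP_47458b_co.Up
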