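import Pool.Agent.Lib.MP_47458b_co.Up.Defs

/-!
The pair step for the upper bound `f(k) ≤ k - c √k` for oriented graphs.
-/

namespace Pool.Agent.Lib.MP_47458b_co.Up

open Finset

variable {V W : Type}

/-- In an oriented graph the lists have no pair of opposite list arcs. -/
private theorem lists_asymm [DecidableEq V] {D : Digraph V} (hD : IsOrientedGraph D) {d : ℕ}
    (Ls : Lists D d) (σ : Bool) {y z : V} (h1 : z ∈ Ls.L σ y) (h2 : y ∈ Ls.L σ z) : False := by
  cases σ with
  | true => exact hD.2 _ _ (Ls.out _ _ h1) (Ls.out _ _ h2)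
  | false => exact hD.2 _ _ (Ls.inn _ _ h1) (Ls.inn _ _ h2)

/-- List elements are different from the vertex. -/
private theorem lists_ne {D : Digraph V} (hD : IsOrientedGraph D) {d : ℕ}
    (Ls : Lists D d) (σ : Bool) {y z : V} (h1 : z ∈ Ls.L σ y) : z ≠ y := by
  rintro rfl
  cases σ with
  | true => exact hD.1 _ (Ls.out _ _ h1)
  | false => exact hD.1 _ (Ls.inn _ _ h1)

/-- At most half of the pairs inside `Y` are list arcs. -/
private theorem arcs_inside [DecidableEq V] {D : Digraph V} (hD : IsOrientedGraph D) {d : ℕ}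
    (Ls : Lists D d) (σ : Bool) (Y : Finset V) :
    2 * ∑ y ∈ Y, (Ls.L σ y ∩ Y).card ≤ Y.card * Y.card := by
  classical
  set P : Finset (V × V) := (Y ×ˢ Y).filter fun p => p.2 ∈ Ls.L σ p.1 with hP
  set Q : Finset (V × V) := (Y ×ˢ Y).filter fun p => p.1 ∈ Ls.L σ p.2 with hQ
  have hPc : P.card = ∑ y ∈ Y, (Ls.L σ y ∩ Y).card := by
    rw [hP, Finset.card_filter, Finset.sum_product]
    refine Finset.sum_congr rfl fun y _ => ?_
    rw [← Finset.card_filter]
    congr 1
    ext z
    simp [and_comm]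
  have hQc : Q.card = ∑ y ∈ Y, (Ls.L σ y ∩ Y).card := by
    rw [hQ, Finset.card_filter, Finset.sum_product_right]
    refine Finset.sum_congr rfl fun y _ => ?_
    rw [← Finset.card_filter]
    congr 1
    ext z
    simp [and_comm]
  have hdisj : Disjoint P Q := by
    rw [Finset.disjoint_left]
    rintro ⟨y, z⟩ h1 h2
    rw [hP, Finset.mem_filter] at h1
    rw [hQ, Finset.mem_filter] at h2
    exact lists_asymm hD Ls σ h1.2 h2.2
  have h := Finset.card_le_card (Finset.union_subset (Finset.filter_subset _ _)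
    (Finset.filter_subset _ _) : P ∪ Q ⊆ Y ×ˢ Y)
  rw [Finset.card_union_of_disjoint hdisj, Finset.card_product, hPc, hQc] at h
  omega

/-- U4. Few vertices of `M` have almost their whole list in `M`. -/
theorem few_closed [DecidableEq V] {D : Digraph V} (hD : IsOrientedGraph D) {d : ℕ}
    (Ls : Lists D d) (M : Finset V) (hM : M.card = d) (σ : Bool) (e : ℕ) :
    (M.filter fun y => (Ls.L σ y \ M).card < e).card ≤ 2 * e := by
  classical
  set Y := M.filter fun y => (Ls.L σ y \ M).card < e with hY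
  by_contra hcon
  push Not at hcon
  have hYM : Y ⊆ M := Finset.filter_subset _ _
  have h1 : ∀ y ∈ Y, Y.card ≤ (Ls.L σ y ∩ Y).card + e := by
    intro y hy
    have hy2 := (Finset.mem_filter.1 hy).2
    have h2 : Ls.L σ y ⊆ (Ls.L σ y ∩ Y) ∪ ((Ls.L σ y \ M) ∪ (M \ Y)) := by
      intro z hz
      simp only [Finset.mem_union, Finset.mem_inter, Finset.mem_sdiff]
      by_cases hzM : z ∈ M
      · by_cases hzY : z ∈ Y
        · exact Or.inl ⟨hz, hzY⟩
        · exact Or.inr (Or.inr ⟨hzM, hzY⟩)
      · exact Or.inr (Or.inl ⟨hz, hzM⟩)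
    have h3 := Finset.card_le_card h2
    have h4 := Finset.card_union_le (Ls.L σ y ∩ Y) ((Ls.L σ y \ M) ∪ (M \ Y))
    have h5 := Finset.card_union_le (Ls.L σ y \ M) (M \ Y)
    have h6 : (M \ Y).card = M.card - Y.card := Finset.card_sdiff_of_subset hYM
    have h7 := Finset.card_le_card hYM
    rw [Ls.card_L] at h3
    omega
  have h2 := arcs_inside hD Ls σ Y
  have h3 : Y.card * Y.card ≤ ∑ y ∈ Y, (Ls.L σ y ∩ Y).card + Y.card * e := by
    calc Y.card * Y.card = ∑ y ∈ Y, Y.card := by simp
      _ ≤ ∑ y ∈ Y, ((Ls.L σ y ∩ Y).card + e) := Finset.sum_le_sum h1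
      _ = _ := by rw [Finset.sum_add_distrib]; simp
  have h4 : Y.card * Y.card ≤ 2 * (Y.card * e) := by omega
  have h5 : Y.card * Y.card ≤ Y.card * (2 * e) := by
    calc Y.card * Y.card ≤ 2 * (Y.card * e) := h4
      _ = _ := by ring
  have h6 : 0 < Y.card := by omega
  have h7 := Nat.le_of_mul_le_mul_left h5 h6
  omega

/-- The potential is nonnegative. -/
private theorem pot_nonneg' [DecidableEq V] (m : ℕ) (U M : Finset V) : 0 ≤ pot m U M := by
  unfold pot
  split
  · positivity
  · exact le_refl _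

/-- The potential decreases. -/
private theorem pot_anti [DecidableEq V] (m : ℕ) {U U' M : Finset V} (h : U ⊆ U') :
    pot m U' M ≤ pot m U M := by
  have hc : (U \ M).card ≤ (U' \ M).card :=
    Finset.card_le_card (Finset.sdiff_subset_sdiff h (le_refl _))
  unfold pot
  by_cases h1 : (U' \ M).card ≤ m
  · rw [if_pos h1, if_pos (hc.trans h1)]
    exact pow_le_pow_of_le_one (by norm_num) (by norm_num) hc
  · rw [if_neg h1]
    split
    · positivity
    · exact le_refl _

/-- The potential is halved by a vertex outside `M`. -/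
private theorem pot_half [DecidableEq V] (m : ℕ) {U U' M : Finset V} (h : U ⊆ U') {z : V}
    (hz : z ∈ U') (hzU : z ∉ U) (hzM : z ∉ M) :
    pot m U' M ≤ pot m U M / 2 := by
  have hss : insert z (U \ M) ⊆ U' \ M := by
    intro x hx
    rcases Finset.mem_insert.1 hx with rfl | hx
    · exact Finset.mem_sdiff.2 ⟨hz, hzM⟩
    · rw [Finset.mem_sdiff] at hx ⊢
      exact ⟨h hx.1, hx.2⟩
  have hc : (U \ M).card + 1 ≤ (U' \ M).card := by
    have h1 := Finset.card_le_card hss
    rwa [Finset.card_insert_of_notMem (fun hh => hzU (Finset.mem_sdiff.1 hh).1)] at h1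
  unfold pot
  by_cases h1 : (U' \ M).card ≤ m
  · rw [if_pos h1, if_pos (by omega)]
    calc (1 / 2 : ℝ) ^ (U' \ M).card ≤ (1 / 2 : ℝ) ^ ((U \ M).card + 1) :=
          pow_le_pow_of_le_one (by norm_num) (by norm_num) hc
      _ = _ := by rw [pow_succ]; ring
  · rw [if_neg h1]
    split
    · positivity
    · simp

/-- Averaging over a set in which many elements are good. -/
private theorem avg_le {ι : Type} [DecidableEq ι] (s g : Finset ι) (hg : g ⊆ s) (f : ι → ℝ)
    (p c : ℝ) (h1 : ∀ i ∈ s, f i ≤ p) (h2 : ∀ i ∈ g, f i ≤ c) :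
    ∑ i ∈ s, f i ≤ s.card * p - g.card * (p - c) := by
  have h3 : ∑ i ∈ s, f i = ∑ i ∈ s \ g, f i + ∑ i ∈ g, f i := (Finset.sum_sdiff hg).symm
  have h4 : ∑ i ∈ s \ g, f i ≤ (s \ g).card * p := by
    rw [← nsmul_eq_mul]
    exact Finset.sum_le_card_nsmul _ _ _ fun i hi => h1 i (Finset.mem_sdiff.1 hi).1
  have h5 : ∑ i ∈ g, f i ≤ g.card * c := by
    rw [← nsmul_eq_mul]
    exact Finset.sum_le_card_nsmul _ _ _ h2
  have h6 : ((s \ g).card : ℝ) = s.card - g.card := by
    rw [Finset.card_sdiff_of_subset hg, Nat.cast_sub (Finset.card_le_card hg)]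
  rw [h6] at h4
  rw [h3]
  nlinarith

/-- U5. The pair step. -/
theorem pair_step [DecidableEq V] {D : Digraph V} (hD : IsOrientedGraph D) {d m k : ℕ}
    (hk : d + m = k) (hm : 32 * (m + 1) ≤ d) (Ls : Lists D d) (U : Finset V)
    (hU : 4 * (U.card + m) ≤ 3 * k) (y : V) (τ σ : Bool) (J : Finset (Finset V))
    (hJ : ∀ M ∈ J, M.card = d) :
    ∃ z z' : V, z ∈ Ls.L τ y ∧ z ∉ U ∧ z' ∈ Ls.L σ z ∧ z' ∉ U ∧ z' ≠ z ∧
      ∑ M ∈ J, pot m (insert z' (insert z U)) M ≤ (127 / 128) * ∑ M ∈ J, pot m U M := by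
  classical
  -- the choices
  have hch : ∀ (ρ : Bool) (x : V), d ≤ 4 * (Ls.L ρ x \ U).card := by
    intro ρ x
    have h1 := Finset.le_card_sdiff U (Ls.L ρ x)
    rw [Ls.card_L] at h1
    omega
  have hch2 : ∀ (ρ : Bool) (x : V), (Ls.L ρ x \ U).card ≤ d := by
    intro ρ x
    have h1 := Finset.card_le_card (Finset.sdiff_subset : Ls.L ρ x \ U ⊆ Ls.L ρ x)
    rwa [Ls.card_L] at h1
  have hch0 : ∀ (ρ : Bool) (x : V), 0 < (Ls.L ρ x \ U).card := by
    intro ρ x
    have := hch ρ x
    omega
  set Z := Ls.L τ y \ U with hZ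
  set A : V → Finset V → ℝ := fun z M =>
    (∑ z' ∈ Ls.L σ z \ U, pot m (insert z' (insert z U)) M) / (Ls.L σ z \ U).card with hA
  have hsub : ∀ z z' : V, U ⊆ insert z' (insert z U) := fun z z' =>
    (Finset.subset_insert z U).trans (Finset.subset_insert z' _)
  -- the average for one set
  have hav : ∀ M ∈ J, ∑ z ∈ Z, A z M ≤ Z.card * (127 / 128 * pot m U M) := by
    intro M hMJ
    have hMd := hJ M hMJ
    set p := pot m U M with hp
    have hp0 : 0 ≤ p := pot_nonneg' m U M
    -- trivial bound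
    have hA1 : ∀ z, A z M ≤ p := by
      intro z
      have hpos : (0 : ℝ) < ((Ls.L σ z \ U).card : ℝ) := by exact_mod_cast hch0 σ z
      rw [hA]
      simp only
      rw [div_le_iff₀ hpos, mul_comm, ← nsmul_eq_mul]
      exact Finset.sum_le_card_nsmul _ _ _ fun z' _ => pot_anti m (hsub z z')
    by_cases hs : (U \ M).card ≤ m
    · -- the good choices of z
      set Y := M.filter fun y => (Ls.L σ y \ M).card < d / 16 with hY
      have hYc : Y.card ≤ 2 * (d / 16) := few_closed hD Ls M hMd σ (d / 16)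
      have hgood : ∀ z ∈ Z \ Y, A z M ≤ 63 / 64 * p := by
        intro z hz
        have hzZ := (Finset.mem_sdiff.1 hz).1
        have hzU : z ∉ U := (Finset.mem_sdiff.1 hzZ).2
        have hzY := (Finset.mem_sdiff.1 hz).2
        have hpos : (0 : ℝ) < ((Ls.L σ z \ U).card : ℝ) := by exact_mod_cast hch0 σ z
        rw [hA]
        simp only
        rw [div_le_iff₀ hpos]
        by_cases hzM : z ∈ M
        · have he : d / 16 ≤ (Ls.L σ z \ M).card := by
            by_contra hcon
            push Not at hcon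
            exact hzY (Finset.mem_filter.2 ⟨hzM, hcon⟩)
          set g := (Ls.L σ z \ U) \ M with hg
          have hgc : d ≤ 32 * g.card := by
            have h1 : Ls.L σ z \ M ⊆ g ∪ (U \ M) := by
              intro x hx
              rw [Finset.mem_sdiff] at hx
              by_cases hxU : x ∈ U
              · exact Finset.mem_union_right _ (Finset.mem_sdiff.2 ⟨hxU, hx.2⟩)
              · exact Finset.mem_union_left _
                  (Finset.mem_sdiff.2 ⟨Finset.mem_sdiff.2 ⟨hx.1, hxU⟩, hx.2⟩)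
            have h2 := (Finset.card_le_card h1).trans (Finset.card_union_le _ _)
            omega
          have h3 := avg_le (Ls.L σ z \ U) g Finset.sdiff_subset
            (fun z' => pot m (insert z' (insert z U)) M) p (p / 2)
            (fun z' _ => pot_anti m (hsub z z'))
            (fun z' hz' => pot_half m (hsub z z') (Finset.mem_insert_self _ _)
              (Finset.mem_sdiff.1 (Finset.mem_sdiff.1 hz').1).2 (Finset.mem_sdiff.1 hz').2)
          refine h3.trans ?_
          have h4 : ((Ls.L σ z \ U).card : ℝ) ≤ 32 * g.card := by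
            exact_mod_cast (hch2 σ z).trans hgc
          nlinarith
        · have h3 : ∑ z' ∈ Ls.L σ z \ U, pot m (insert z' (insert z U)) M
              ≤ (Ls.L σ z \ U).card * (p / 2) := by
            rw [← nsmul_eq_mul]
            exact Finset.sum_le_card_nsmul _ _ _ fun z' _ => pot_half m (hsub z z')
              (Finset.mem_insert_of_mem (Finset.mem_insert_self _ _)) hzU hzM
          refine h3.trans ?_
          nlinarith
      have h5 := avg_le Z (Z \ Y) Finset.sdiff_subset (fun z => A z M) p (63 / 64 * p)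
        (fun z _ => hA1 z) hgood
      refine h5.trans ?_
      have h6 : (Z.card : ℝ) ≤ 2 * (Z \ Y).card := by
        have h7 := Finset.le_card_sdiff Y Z
        have h8 := hch τ y
        have h9 : Z.card ≤ 2 * (Z \ Y).card := by
          rw [← hZ] at h8
          omega
        exact_mod_cast h9
      nlinarith
    · have hp00 : p = 0 := by
        rw [hp]
        unfold pot
        rw [if_neg hs]
      have h5 : ∑ z ∈ Z, A z M ≤ Z.card * p := by
        rw [← nsmul_eq_mul]
        exact Finset.sum_le_card_nsmul _ _ _ fun z _ => hA1 z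
      rw [hp00] at h5 ⊢
      simpa using h5
  -- sum over the family
  set C := (127 / 128 : ℝ) * ∑ M ∈ J, pot m U M with hC
  have hsum : ∑ z ∈ Z, ∑ M ∈ J, A z M ≤ ∑ _z ∈ Z, C := by
    rw [Finset.sum_comm]
    calc ∑ M ∈ J, ∑ z ∈ Z, A z M ≤ ∑ M ∈ J, Z.card * (127 / 128 * pot m U M) :=
          Finset.sum_le_sum hav
      _ = ∑ _z ∈ Z, C := by
          rw [Finset.sum_const, nsmul_eq_mul, hC, Finset.mul_sum, Finset.mul_sum]
  have hZne : Z.Nonempty := Finset.card_pos.1 (hch0 τ y)
  obtain ⟨z, hzZ, hz⟩ := Finset.exists_le_of_sum_le hZne hsum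
  have hpos : (0 : ℝ) < ((Ls.L σ z \ U).card : ℝ) := by exact_mod_cast hch0 σ z
  have hsum2 : ∑ z' ∈ Ls.L σ z \ U, ∑ M ∈ J, pot m (insert z' (insert z U)) M ≤
      ∑ _z' ∈ Ls.L σ z \ U, C := by
    rw [hA] at hz
    simp only at hz
    rw [← Finset.sum_div, div_le_iff₀ hpos, Finset.sum_comm] at hz
    rw [Finset.sum_const, nsmul_eq_mul, mul_comm]
    exact hz
  obtain ⟨z', hz'Z, hz'⟩ := Finset.exists_le_of_sum_le (Finset.card_pos.1 (hch0 σ z)) hsum2
  exact ⟨z, z', (Finset.mem_sdiff.1 hzZ).1, (Finset.mem_sdiff.1 hzZ).2,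
    (Finset.mem_sdiff.1 hz'Z).1, (Finset.mem_sdiff.1 hz'Z).2,
    lists_ne hD Ls σ (Finset.mem_sdiff.1 hz'Z).1, hz'⟩

end Pool.Agent.Lib.MP_47458b_co.Up
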