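import Pool.Agent.Lib.MP_47458b_co.Up.Defs

/-!
Splitting an oriented tree at a vertex.
-/

namespace Pool.Agent.Lib.MP_47458b_co.Up

open Finset

variable {V W : Type}

private lemma split_closed_walk {G : SimpleGraph W} {A : Finset W}
    (h : ∀ x ∈ A, ∀ y, G.Adj x y → y ∈ A) :
    ∀ {u v : W} (_ : G.Walk u v), u ∈ A → v ∈ A := by
  intro u v w
  induction w with
  | nil => exact id
  | cons hadj _ ih =>
    intro hu
    exact ih (h _ hu _ hadj)

/-- U9. Splitting at a vertex. -/
theorem splitting [Fintype W] [DecidableEq W] {k : ℕ} {T : Digraph W} (hT : IsOrientedTree k T)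
    (I : Finset W) (hI : 4 ≤ I.card) :
    ∃ (c : W) (A B : Finset W), c ∉ A ∧ c ∉ B ∧ Disjoint A B ∧ (∀ x, x = c ∨ x ∈ A ∨ x ∈ B) ∧
      (∀ x ∈ A, ∀ y ∈ B, ¬ Nbr T x y) ∧ I.card ≤ 3 * (I ∩ A).card + 3 ∧
      I.card ≤ 3 * (I ∩ B).card + 3 := by
  classical
  obtain ⟨hor, htree, -⟩ := hT
  set G : SimpleGraph W := T.toSimpleGraphInclusive with hG
  have hadj : ∀ x y, Nbr T x y ↔ G.Adj x y := by
    intro x y
    rw [hG, Digraph.toSimpleGraphInclusive, SimpleGraph.fromRel_adj, Nbr]
    constructor
    · intro h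
      refine ⟨?_, h⟩
      rintro rfl
      rcases h with h | h <;> exact hor.1 _ h
    · exact fun h => h.2
  let Q : Finset (W × Finset W) := univ.filter (fun p => p.1 ∉ p.2 ∧
    (∀ x ∈ p.2, ∀ y, G.Adj x y → y ∈ p.2 ∨ y = p.1) ∧ I.card ≤ 3 * (I ∩ p.2).card + 1)
  have hQ : ∀ p : W × Finset W, p ∈ Q ↔ (p.1 ∉ p.2 ∧
    (∀ x ∈ p.2, ∀ y, G.Adj x y → y ∈ p.2 ∨ y = p.1) ∧ I.card ≤ 3 * (I ∩ p.2).card + 1) := by
    intro p
    simp [Q]
  have hne : Q.Nonempty := by
    obtain ⟨c₀, hc₀⟩ : I.Nonempty := by
      rw [← Finset.card_pos]; omega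
    refine ⟨(c₀, univ.erase c₀), ?_⟩
    rw [hQ]
    refine ⟨by simp, ?_, ?_⟩
    · intro x _ y _
      by_cases hy : y = c₀
      · exact Or.inr hy
      · exact Or.inl (by simp [hy])
    · have h1 : I ∩ univ.erase c₀ = I.erase c₀ := by
        ext x
        simp [and_comm]
      simp only
      rw [h1, Finset.card_erase_of_mem hc₀]
      omega
  obtain ⟨⟨c, A⟩, hmem, hmin⟩ := Finset.exists_min_image Q (fun p => p.2.card) hne
  rw [hQ] at hmem
  obtain ⟨hcA, hcl, hIA⟩ := hmem
  simp only at hcA hcl hIA hmin
  have hIApos : 1 ≤ (I ∩ A).card := by omega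
  obtain ⟨a, ha⟩ : A.Nonempty := by
    have : (I ∩ A).Nonempty := by
      rw [← Finset.card_pos]; omega
    obtain ⟨x, hx⟩ := this
    exact ⟨x, (Finset.mem_inter.mp hx).2⟩
  -- a neighbour of c in A
  obtain ⟨b, hbA, hbc⟩ : ∃ b ∈ A, G.Adj b c := by
    by_contra hcon
    push Not at hcon
    have h1 : ∀ x ∈ A, ∀ y, G.Adj x y → y ∈ A := by
      intro x hx y hxy
      rcases hcl x hx y hxy with h | h
      · exact h
      · subst h
        exact absurd hxy (hcon x hx)
    obtain ⟨w⟩ := htree.1.preconnected a c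
    exact hcA (split_closed_walk h1 w ha)
  set P : W → Prop := fun x => ∃ w : G.Walk b x, ∀ v ∈ w.support, v ∈ A with hP
  set A₁ : Finset W := A.filter P with hA₁
  have hbA₁ : b ∈ A₁ := by
    rw [hA₁, Finset.mem_filter]
    refine ⟨hbA, SimpleGraph.Walk.nil, ?_⟩
    simp [hbA]
  have hA₁sub : A₁ ⊆ A := Finset.filter_subset _ _
  have hstep : ∀ x ∈ A₁, ∀ y ∈ A, G.Adj x y → y ∈ A₁ := by
    intro x hx y hy hxy
    rw [hA₁, Finset.mem_filter] at hx ⊢
    obtain ⟨hxA, w, hw⟩ := hx
    refine ⟨hy, w.concat hxy, ?_⟩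
    intro v hv
    rw [SimpleGraph.Walk.support_concat, List.mem_append] at hv
    rcases hv with hv | hv
    · exact hw v hv
    · rw [List.mem_singleton] at hv
      rw [hv]
      exact hy
  have hkey : 3 * (I ∩ A).card ≤ 2 * I.card := by
    by_cases hAA : A₁ = A
    · -- the only neighbour of c in A is b
      have huniq : ∀ x ∈ A, G.Adj x c → x = b := by
        intro x hx hxc
        by_contra hxb
        have hx1 : x ∈ A₁ := by rw [hAA]; exact hx
        rw [hA₁, Finset.mem_filter] at hx1
        obtain ⟨-, w, hw⟩ := hx1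
        let p : G.Walk b x := SimpleGraph.Walk.cons hbc (SimpleGraph.Walk.cons hxc.symm .nil)
        have hp : p.IsPath := by
          rw [SimpleGraph.Walk.isPath_def]
          simp only [p, SimpleGraph.Walk.support_cons, SimpleGraph.Walk.support_nil]
          have h1 : b ≠ c := hbc.ne
          have h2 : c ≠ x := hxc.ne.symm
          have h3 : b ≠ x := fun h => hxb h.symm
          simp [h1, h2, h3]
        have h4 : (⟨w.bypass, w.bypass_isPath⟩ : G.Path b x) = ⟨p, hp⟩ :=
          (htree.2.subsingleton_path b x).elim _ _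
        have h5 : w.bypass = p := congrArg Subtype.val h4
        have h6 : c ∈ p.support := by
          simp [p]
        rw [← h5] at h6
        exact hcA (hw c (w.support_bypass_subset_support h6))
      by_contra hcon
      push Not at hcon
      have h7 : (b, A.erase b) ∈ Q := by
        rw [hQ]
        refine ⟨by simp, ?_, ?_⟩
        · intro x hx y hxy
          simp only [Finset.mem_erase] at hx ⊢
          rcases hcl x hx.2 y hxy with h | h
          · by_cases hyb : y = b
            · exact Or.inr hyb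
            · exact Or.inl ⟨hyb, h⟩
          · subst h
            exact absurd (huniq x hx.2 hxy) hx.1
        · have h8 : (I ∩ A).card ≤ (I ∩ A.erase b).card + 1 := by
            have : I ∩ A ⊆ insert b (I ∩ A.erase b) := by
              intro x hx
              rw [Finset.mem_inter] at hx
              by_cases hxb : x = b
              · simp [hxb]
              · simp [hxb, hx.1, hx.2]
            exact (Finset.card_le_card this).trans (Finset.card_insert_le _ _)
          simp only
          omega
      have h9 := hmin _ h7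
      simp only at h9
      rw [Finset.card_erase_of_mem hbA] at h9
      have := Finset.card_pos.mpr ⟨b, hbA⟩
      omega
    · have hlt1 : A₁.card < A.card :=
        Finset.card_lt_card (Finset.ssubset_iff_subset_ne.mpr ⟨hA₁sub, hAA⟩)
      have hlt2 : (A \ A₁).card < A.card := by
        refine Finset.card_lt_card ?_
        rw [Finset.ssubset_iff_subset_ne]
        refine ⟨Finset.sdiff_subset, ?_⟩
        intro h
        have : b ∈ A \ A₁ := by rw [h]; exact hbA
        rw [Finset.mem_sdiff] at this
        exact this.2 hbA₁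
      have hn1 : ¬ (I.card ≤ 3 * (I ∩ A₁).card + 1) := by
        intro h
        have h1 : (c, A₁) ∈ Q := by
          rw [hQ]
          refine ⟨fun h => hcA (hA₁sub h), ?_, h⟩
          intro x hx y hxy
          rcases hcl x (hA₁sub hx) y hxy with h | h
          · exact Or.inl (hstep x hx y h hxy)
          · exact Or.inr h
        have := hmin _ h1
        simp only at this
        omega
      have hn2 : ¬ (I.card ≤ 3 * (I ∩ (A \ A₁)).card + 1) := by
        intro h
        have h1 : (c, A \ A₁) ∈ Q := by
          rw [hQ]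
          refine ⟨fun h => hcA (Finset.mem_sdiff.mp h).1, ?_, h⟩
          intro x hx y hxy
          rw [Finset.mem_sdiff] at hx
          rcases hcl x hx.1 y hxy with h | h
          · refine Or.inl (Finset.mem_sdiff.mpr ⟨h, fun hy => ?_⟩)
            exact hx.2 (hstep y hy x hx.1 hxy.symm)
          · exact Or.inr h
        have := hmin _ h1
        simp only at this
        omega
      have hsum : (I ∩ A).card ≤ (I ∩ A₁).card + (I ∩ (A \ A₁)).card := by
        have : I ∩ A ⊆ (I ∩ A₁) ∪ (I ∩ (A \ A₁)) := by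
          intro x hx
          rw [Finset.mem_inter] at hx
          by_cases hxb : x ∈ A₁
          · exact Finset.mem_union_left _ (Finset.mem_inter.mpr ⟨hx.1, hxb⟩)
          · exact Finset.mem_union_right _
              (Finset.mem_inter.mpr ⟨hx.1, Finset.mem_sdiff.mpr ⟨hx.2, hxb⟩⟩)
        exact (Finset.card_le_card this).trans (Finset.card_union_le _ _)
      omega
  refine ⟨c, A, univ.filter (fun x => x ≠ c ∧ x ∉ A), hcA, by simp, ?_, ?_, ?_, by omega, ?_⟩
  · rw [Finset.disjoint_left]
    intro x hx hx'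
    rw [Finset.mem_filter] at hx'
    exact hx'.2.2 hx
  · intro x
    by_cases h1 : x = c
    · exact Or.inl h1
    · by_cases h2 : x ∈ A
      · exact Or.inr (Or.inl h2)
      · exact Or.inr (Or.inr (by simp [h1, h2]))
  · intro x hx y hy hxy
    rw [Finset.mem_filter] at hy
    rcases hcl x hx y ((hadj x y).mp hxy) with h | h
    · exact hy.2.2 h
    · exact hy.2.1 h
  · have h1 : I.card ≤ (I ∩ A).card +
        (I ∩ univ.filter (fun x => x ≠ c ∧ x ∉ A)).card + 1 := by
      have : I ⊆ insert c ((I ∩ A) ∪ (I ∩ univ.filter (fun x => x ≠ c ∧ x ∉ A))) := by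
        intro x hx
        by_cases h1 : x = c
        · simp [h1]
        · by_cases h2 : x ∈ A
          · simp [h2, hx]
          · simp [h1, h2, hx]
      have h2 := (Finset.card_le_card this).trans (Finset.card_insert_le _ _)
      have h3 := Finset.card_union_le (I ∩ A) (I ∩ univ.filter (fun x => x ≠ c ∧ x ∉ A))
      omega
    omega

end Pool.Agent.Lib.MP_47458b_co.Up
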