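import Pool.Agent.Lib.MP_47458b_co.Up.Tree
import Pool.Agent.Lib.MP_47458b_co.Up.Pot

/-!
Stage 2 of the oriented upper bound: pair steps (piece U6).
-/

namespace Pool.Agent.Lib.MP_47458b_co.Up

open Finset

variable {V W : Type}

/-- U6. Stage 2. -/
theorem stage2 [DecidableEq V] [DecidableEq W] {T : Digraph W} {D : Digraph V}
    (hT : IsOrientedGraph T) (hD : IsOrientedGraph D) {d m k : ℕ} (hk : d + m = k)
    (hm : 32 * (m + 1) ≤ d) (Ls : Lists D d) {r : W} (R : Rooted T r)
    (J : Finset (Finset V)) (hJ : ∀ M ∈ J, M.card = d) (S₁ B I : Finset W) (hS₁ : R.Closed S₁)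
    (hdis : Disjoint S₁ B) (hB : ∀ x, x ≠ r → R.par x ∈ B → x ∈ B) (hI : I ⊆ B)
    (hI' : ∀ x ∈ I, ∃ y, y ≠ r ∧ R.par y = x) (hIc : ∀ x ∈ I, R.par x ∈ I ∨ R.par x = r)
    {φ : W → V} (hφ : Emb T D S₁ φ) (n : ℕ) (hn : 2 * n ≤ I.card)
    (hc : 4 * (S₁.card + 2 * n + m) ≤ 3 * k) :
    ∃ (S : Finset W) (φ' : W → V), R.Closed S ∧ S₁ ⊆ S ∧ S ⊆ S₁ ∪ B ∧
      S.card = S₁.card + 2 * n ∧ Emb T D S φ' ∧ (∀ x ∈ S₁, φ' x = φ x) ∧
      ∑ M ∈ J, pot m (S.image φ') M ≤ (127 / 128) ^ n * ∑ M ∈ J, pot m (S₁.image φ) M := by
  induction n with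
  | zero =>
    refine ⟨S₁, φ, hS₁, Subset.refl _, subset_union_left, by simp, hφ, fun _ _ => rfl, ?_⟩
    simp
  | succ n ih =>
    obtain ⟨S, ψ, hSc, hS1, hS2, hScard, hψ, hψφ, hpot⟩ := ih (by omega) (by omega)
    have hrS : r ∈ S := hSc.1
    -- a new internal vertex
    have hnot : ∀ x ∈ B, x ∉ S₁ := fun x hx hx' => (Finset.disjoint_left.1 hdis) hx' hx
    have hne : (I \ S).Nonempty := by
      rw [Finset.nonempty_iff_ne_empty]
      intro h0
      have hsub : I ⊆ S \ S₁ := by
        intro x hx
        rw [mem_sdiff]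
        refine ⟨?_, hnot x (hI hx)⟩
        by_contra hxS
        have : x ∈ I \ S := mem_sdiff.2 ⟨hx, hxS⟩
        rw [h0] at this
        exact absurd this (notMem_empty x)
      have h1 := card_le_card hsub
      rw [card_sdiff_of_subset hS1, hScard] at h1
      omega
    obtain ⟨x, hx, hxmin⟩ := exists_min_image (I \ S) R.dep hne
    obtain ⟨hxI, hxS⟩ := mem_sdiff.1 hx
    have hxr : x ≠ r := fun h => hxS (h ▸ hrS)
    have hpx : R.par x ∈ S := by
      rcases hIc x hxI with h1 | h1
      · by_contra h2
        have h3 := hxmin (R.par x) (mem_sdiff.2 ⟨h1, h2⟩)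
        have h4 := R.dep_par x hxr
        omega
      · rw [h1]; exact hrS
    obtain ⟨y, hyr, hyx⟩ := hI' x hxI
    have hyS : y ∉ S := fun h => hxS (hyx ▸ hSc.2 y h hyr)
    have hyne : y ≠ x := by
      intro h
      have h4 := R.dep_par y hyr
      rw [hyx, h] at h4
      exact lt_irrefl _ h4
    have hyB : y ∈ B := hB y hyr (by rw [hyx]; exact hI hxI)
    have hUc : (S.image ψ).card ≤ S.card := card_image_le
    obtain ⟨z, z', hz, hzU, hz', hz'U, hzz, hp⟩ := pair_step hD hk hm Ls (S.image ψ) (by omega)
      (ψ (R.par x)) (R.sg x) (R.sg y) J hJ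
    have hzψ : ∀ a ∈ S, ψ a ≠ z := fun a ha h => hzU (h ▸ mem_image_of_mem ψ ha)
    have hz'ψ : ∀ a ∈ S, ψ a ≠ z' := fun a ha h => hz'U (h ▸ mem_image_of_mem ψ ha)
    have hE1 : Emb T D (insert x S) (Function.update ψ x z) :=
      Emb.extend hT R hSc hψ hxS hpx hzψ
        (fun h => by rw [h] at hz; exact Ls.out _ _ hz)
        (fun h => by rw [h] at hz; exact Ls.inn _ _ hz)
    have hC1 : R.Closed (insert x S) := Closed.insert R hSc hpx
    have hyS' : y ∉ insert x S := by
      rw [mem_insert, not_or]
      exact ⟨hyne, hyS⟩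
    have hpy : R.par y ∈ insert x S := by rw [hyx]; exact mem_insert_self _ _
    have hup : Function.update ψ x z (R.par y) = z := by rw [hyx, Function.update_self]
    have hE2 : Emb T D (insert y (insert x S)) (Function.update (Function.update ψ x z) y z') := by
      refine Emb.extend hT R hC1 hE1 hyS' hpy ?_ ?_ ?_
      · intro a ha
        rcases mem_insert.1 ha with h | h
        · rw [h, Function.update_self]
          exact hzz.symm
        · have hax : a ≠ x := by
            rintro rfl
            exact hxS h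
          rw [Function.update_of_ne hax]
          exact hz'ψ a h
      · intro h
        rw [hup]
        rw [h] at hz'
        exact Ls.out _ _ hz'
      · intro h
        rw [hup]
        rw [h] at hz'
        exact Ls.inn _ _ hz'
    have hC2 : R.Closed (insert y (insert x S)) := Closed.insert R hC1 hpy
    have himg : (insert y (insert x S)).image (Function.update (Function.update ψ x z) y z') =
        insert z' (insert z (S.image ψ)) := by
      rw [image_insert, image_insert, Function.update_self,
        Function.update_of_ne hyne.symm, Function.update_self]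
      congr 2
      refine image_congr fun a ha => ?_
      have ha' : a ∈ S := ha
      have hay : a ≠ y := by
        rintro rfl
        exact hyS ha'
      have hax : a ≠ x := by
        rintro rfl
        exact hxS ha'
      rw [Function.update_of_ne hay, Function.update_of_ne hax]
    refine ⟨insert y (insert x S), Function.update (Function.update ψ x z) y z', hC2, ?_, ?_, ?_,
      hE2, ?_, ?_⟩
    · intro a ha
      exact mem_insert_of_mem (mem_insert_of_mem (hS1 ha))
    · intro a ha
      rcases mem_insert.1 ha with h | h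
      · rw [h]; exact mem_union_right _ hyB
      · rcases mem_insert.1 h with h | h
        · rw [h]; exact mem_union_right _ (hI hxI)
        · exact hS2 h
    · rw [card_insert_of_notMem hyS', card_insert_of_notMem hxS, hScard]
      ring
    · intro a ha
      have hay : a ≠ y := by
        rintro rfl
        exact hyS (hS1 ha)
      have hax : a ≠ x := by
        rintro rfl
        exact hxS (hS1 ha)
      rw [Function.update_of_ne hay, Function.update_of_ne hax]
      exact hψφ a ha
    · rw [himg, pow_succ]
      calc ∑ M ∈ J, pot m (insert z' (insert z (S.image ψ))) M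
          ≤ (127 / 128) * ∑ M ∈ J, pot m (S.image ψ) M := hp
        _ ≤ (127 / 128) * ((127 / 128) ^ n * ∑ M ∈ J, pot m (S₁.image φ) M) :=
            mul_le_mul_of_nonneg_left hpot (by norm_num)
        _ = (127 / 128) ^ n * (127 / 128) * ∑ M ∈ J, pot m (S₁.image φ) M := by ring

end Pool.Agent.Lib.MP_47458b_co.Up
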