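import Pool.Agent.Lib.MP_47458b_co.Up.Leafy
import Pool.Agent.Lib.MP_47458b_co.Up.Pot
import Pool.Agent.Lib.MP_47458b_co.Up.Stage
import Pool.Agent.Lib.MP_47458b_co.Up.Split
import Pool.Agent.Lib.MP_47458b_co.Up.Count
import Pool.Agent.Lib.MP_47458b_co.Up.Num

/-! Assembly of the upper bound for oriented graphs. -/

namespace Pool.Agent.Lib.MP_47458b_co.Up

open Finset

variable {V W : Type}

theorem Rooted.of_nbr {T : Digraph W} {r : W} (R : Rooted T r) {a b : W} (h : Nbr T a b) :
    (a ≠ r ∧ R.par a = b) ∨ (b ≠ r ∧ R.par b = a) := by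
  rcases h with h | h
  · exact R.edge a b h
  · exact (R.edge b a h).symm

theorem Rooted.par_ne {T : Digraph W} {r : W} (R : Rooted T r) {x : W} (hx : x ≠ r) :
    R.par x ≠ x := by
  intro h
  have := R.dep_par x hx
  rw [h] at this
  exact lt_irrefl _ this

/-- A vertex with a child (not the root) is not a leaf. -/
theorem Rooted.not_leaf {T : Digraph W} {r : W} (R : Rooted T r) {x y : W} (hx : x ≠ r)
    (hy : y ≠ r) (h : R.par y = x) : ¬ IsLeaf T x := by
  rintro ⟨z, -, hz⟩
  have h1 : R.par x = z := hz _ (R.nbr_par hx)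
  have h2 : y = z := hz _ (by have := R.nbr_par hy; rw [h] at this; exact this.symm')
  have h3 := R.dep_par x hx
  have h4 := R.dep_par y hy
  rw [h1, ← h2] at h3
  rw [h] at h4
  omega

/-- A vertex that is neither the root nor a leaf has a child. -/
theorem Rooted.exists_child {T : Digraph W} {r : W} (R : Rooted T r) {x : W} (hx : x ≠ r)
    (h : ¬ IsLeaf T x) : ∃ y, y ≠ r ∧ R.par y = x := by
  by_contra hcon
  push Not at hcon
  apply h
  refine ⟨R.par x, R.nbr_par hx, ?_⟩
  intro y hy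
  rcases R.of_nbr hy with h1 | h1
  · exact h1.2.symm
  · exact absurd h1.2 (hcon y h1.1)

/-- The common part of both cases: everything up to the end of stage 2. -/
theorem stages [DecidableEq V] [DecidableEq W] [Fintype W] {T : Digraph W} {D : Digraph V}
    (hT : IsOrientedGraph T) (hD : IsOrientedGraph D) {d m k : ℕ} (hk : d + m = k)
    (hm : 32 * (m + 1) ≤ d) (Ls : Lists D d) (v : V) {c : W} (R : Rooted T c)
    (S₁ S₂ A B I : Finset W)
    (hI : ∀ x, x ∈ I ↔ ¬ IsLeaf T x)
    (hcA : c ∉ A) (hcB : c ∉ B) (hAB : Disjoint A B) (hcover : ∀ x, x = c ∨ x ∈ A ∨ x ∈ B)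
    (hedge : ∀ x ∈ A, ∀ y ∈ B, ¬ Nbr T x y)
    (hS₁ : R.Closed S₁) (hS₁A : S₁ ⊆ insert c A) (hS₂ : R.Closed S₂) (hS₂B : S₁ ∪ B ⊆ S₂)
    (hS₂c : S₂.card ≤ d + 1) (h : ℕ) (a n : ℕ)
    (hJ : ∀ Z : Finset V, Z.card ≤ S₁.card → (listsOf Ls (reach Ls h Z)).card < 2 ^ a)
    (han : 89 * (a + m) ≤ n) (hn : 2 * n ≤ (I ∩ B).card)
    (hc : 4 * (S₁.card + 2 * n + m) ≤ 3 * k) :
    ∃ φ : W → V, Emb T D S₂ φ ∧
      ∀ M ∈ listsOf Ls (reach Ls h (S₁.image φ)), m < (S₂.image φ \ M).card := by
  classical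
  -- stage 1
  have hroot : R.Closed {c} := by
    refine ⟨Finset.mem_singleton_self c, ?_⟩
    intro x hx hxc
    exact absurd (Finset.mem_singleton.1 hx) hxc
  have hemb0 : Emb T D {c} (fun _ => v) := by
    refine ⟨by simp, ?_⟩
    intro a ha b hb hab
    rw [Finset.mem_singleton] at ha hb
    subst ha; subst hb
    exact absurd hab (hT.1 _)
  obtain ⟨φ₁, hφ₁, -⟩ := greedy hT hD.1 Ls R hroot hS₁
    (by intro x hx; rw [Finset.mem_singleton] at hx; rw [hx]; exact hS₁.1) (by omega) hemb0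
  -- stage 2
  set Z := S₁.image φ₁ with hZ
  set J := listsOf Ls (reach Ls h Z) with hJdef
  have hJd : ∀ M ∈ J, M.card = d := by
    intro M hM
    rw [hJdef, listsOf, Finset.mem_union, Finset.mem_image, Finset.mem_image] at hM
    rcases hM with ⟨z, -, rfl⟩ | ⟨z, -, rfl⟩ <;> exact Ls.card_L _ _
  have hparB : ∀ x ∈ B, R.par x ∈ B ∨ R.par x = c := by
    intro x hx
    have hxc : x ≠ c := fun h => hcB (h ▸ hx)
    rcases hcover (R.par x) with h1 | h1 | h1
    · exact Or.inr h1
    · exact absurd (R.nbr_par hxc).symm' (hedge _ h1 _ hx)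
    · exact Or.inl h1
  obtain ⟨S, φ₂, hS, hS₁S, hSB, hScard, hφ₂, hφ₂₁, hpot⟩ := stage2 hT hD hk hm Ls R J hJd S₁ B
    (I ∩ B) hS₁ (by
      rw [Finset.disjoint_left]
      intro x hx hxB
      rcases Finset.mem_insert.1 (hS₁A hx) with h1 | h1
      · exact hcB (h1 ▸ hxB)
      · exact (Finset.disjoint_left.1 hAB h1) hxB)
    (by
      intro x hxc hx
      rcases hcover x with h1 | h1 | h1
      · exact absurd h1 hxc
      · exact absurd (R.nbr_par hxc) (hedge _ h1 _ hx)
      · exact h1)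
    Finset.inter_subset_right
    (by
      intro x hx
      rw [Finset.mem_inter] at hx
      exact R.exists_child (fun h => hcB (h ▸ hx.2)) ((hI x).1 hx.1))
    (by
      intro x hx
      rw [Finset.mem_inter] at hx
      have hxc : x ≠ c := fun h => hcB (h ▸ hx.2)
      rcases hparB x hx.2 with h1 | h1
      · left
        rw [Finset.mem_inter]
        exact ⟨(hI _).2 (R.not_leaf (fun h => hcB (h ▸ h1)) hxc rfl), h1⟩
      · exact Or.inr h1)
    hφ₁ n hn hc
  have hsafe2 : ∀ M ∈ J, m < (S.image φ₂ \ M).card :=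
    safe_of_pot (hJ Z (Finset.card_image_le)) han hpot
  -- stage 3
  obtain ⟨φ₃, hφ₃, hφ₃₂⟩ := greedy hT hD.1 Ls R hS hS₂ (hSB.trans hS₂B) hS₂c hφ₂
  refine ⟨φ₃, hφ₃, ?_⟩
  have himg : S₁.image φ₃ = Z := by
    rw [hZ]
    apply Finset.image_congr
    intro x hx
    rw [hφ₃₂ x (hS₁S hx), hφ₂₁ x hx]
  have himg2 : S.image φ₂ ⊆ S₂.image φ₃ := by
    intro z hz
    obtain ⟨x, hx, rfl⟩ := Finset.mem_image.1 hz
    rw [← hφ₃₂ x hx]
    exact Finset.mem_image_of_mem _ (hS₂B (hSB hx))
  rw [himg]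
  intro M hM
  exact (hsafe2 M hM).trans_le (Finset.card_le_card (Finset.sdiff_subset_sdiff himg2 le_rfl))

/-- Leaf case. -/
theorem leaf_case [DecidableEq V] [DecidableEq W] [Fintype W] {T : Digraph W} {D : Digraph V}
    {d m k : ℕ} (hT : IsOrientedTree k T) (hD : IsOrientedGraph D) (hk : d + m = k)
    (hm : 32 * (m + 1) ≤ d) (Ls : Lists D d) (v : V) (c : W)
    (A B I : Finset W) (hI : ∀ x, x ∈ I ↔ ¬ IsLeaf T x)
    (hcA : c ∉ A) (hcB : c ∉ B) (hAB : Disjoint A B) (hcover : ∀ x, x = c ∨ x ∈ A ∨ x ∈ B)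
    (hedge : ∀ x ∈ A, ∀ y ∈ B, ¬ Nbr T x y)
    (hIB : I.card ≤ 3 * (I ∩ B).card + 3) (hleaf : m ≤ (A \ I).card)
    (hm1 : 1 ≤ m) (hkm : (1000 * m) ^ 2 ≤ k) (hi : k + 1 ≤ m * I.card) : Contains D T := by
  classical
  obtain ⟨R⟩ := exists_rooted hT c
  have hW : Fintype.card W = k + 1 := by rw [← Nat.card_eq_fintype_card]; exact hT.2.2
  obtain ⟨Rm, hRm, hRmc⟩ := Finset.exists_subset_card_eq hleaf
  obtain ⟨a, n, ha, han, hn, hc⟩ := num_leaf hm1 hkm hi (by
    rw [← hW]; exact Finset.card_le_univ I)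
  set S₁ := insert c (A ∩ I) with hS₁
  set S₂ := univ \ Rm with hS₂
  have hparA : ∀ x ∈ A, R.par x ∈ A ∨ R.par x = c := by
    intro x hx
    have hxc : x ≠ c := fun h => hcA (h ▸ hx)
    rcases hcover (R.par x) with h1 | h1 | h1
    · exact Or.inr h1
    · exact Or.inl h1
    · exact absurd (R.nbr_par hxc) (hedge _ hx _ h1)
  have hparI : ∀ x ∈ A, R.par x ∈ S₁ := by
    intro x hx
    have hxc : x ≠ c := fun h => hcA (h ▸ hx)
    rcases hparA x hx with h1 | h1
    · rw [hS₁, Finset.mem_insert, Finset.mem_inter]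
      exact Or.inr ⟨h1, (hI _).2 (R.not_leaf (fun h => hcA (h ▸ h1)) hxc rfl)⟩
    · rw [hS₁, h1]; exact Finset.mem_insert_self _ _
  have hS₁cl : R.Closed S₁ := by
    refine ⟨Finset.mem_insert_self _ _, ?_⟩
    intro x hx hxc
    rcases Finset.mem_insert.1 hx with h1 | h1
    · exact absurd h1 hxc
    · exact hparI x (Finset.mem_inter.1 h1).1
  have hRmA : ∀ x ∈ Rm, x ∈ A ∧ IsLeaf T x := by
    intro x hx
    have := hRm hx
    rw [Finset.mem_sdiff] at this
    exact ⟨this.1, by by_contra h; exact this.2 ((hI x).2 h)⟩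
  have hS₁S₂ : S₁ ⊆ S₂ := by
    intro x hx
    rw [hS₂, Finset.mem_sdiff]
    refine ⟨Finset.mem_univ _, fun h => ?_⟩
    have h1 := hRmA x h
    rcases Finset.mem_insert.1 hx with h2 | h2
    · exact hcA (h2 ▸ h1.1)
    · exact (hI x).1 (Finset.mem_inter.1 h2).2 h1.2
  have hS₂cl : R.Closed S₂ := by
    refine ⟨hS₁S₂ hS₁cl.1, ?_⟩
    intro x hx hxc
    rw [hS₂, Finset.mem_sdiff]
    refine ⟨Finset.mem_univ _, fun h => ?_⟩
    have h1 := hRmA _ h
    have h2 : R.par x ≠ c := fun h => hcA (h ▸ h1.1)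
    exact R.not_leaf h2 hxc rfl h1.2
  have hS₂card : S₂.card = d + 1 := by
    rw [hS₂, Finset.card_sdiff_of_subset (Finset.subset_univ _), hRmc, Finset.card_univ, hW]
    omega
  have hS₁card : 3 * S₁.card ≤ 2 * I.card + 6 := by
    have h1 : S₁.card ≤ (A ∩ I).card + 1 := Finset.card_insert_le _ _
    have h2 : (A ∩ I).card + (I ∩ B).card ≤ I.card := by
      rw [← Finset.card_union_of_disjoint]
      · apply Finset.card_le_card
        intro x hx
        rcases Finset.mem_union.1 hx with h | h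
        · exact (Finset.mem_inter.1 h).2
        · exact (Finset.mem_inter.1 h).1
      · rw [Finset.disjoint_left]
        intro x hx hx'
        exact Finset.disjoint_left.1 hAB (Finset.mem_inter.1 hx).1 (Finset.mem_inter.1 hx').2
    omega
  obtain ⟨φ, hφ, hsafe⟩ := stages hT.1 hD hk hm Ls v R S₁ S₂ A B I hI hcA hcB hAB hcover hedge
    hS₁cl (by
      intro x hx
      rcases Finset.mem_insert.1 hx with h | h
      · rw [h]; exact Finset.mem_insert_self _ _
      · exact Finset.mem_insert_of_mem (Finset.mem_inter.1 h).1) hS₂cl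
    (by
      intro x hx
      rcases Finset.mem_union.1 hx with h | h
      · exact hS₁S₂ h
      · rw [hS₂, Finset.mem_sdiff]
        exact ⟨Finset.mem_univ _, fun h' => Finset.disjoint_left.1 hAB (hRmA x h').1 h⟩)
    hS₂card.le 0 a n
    (by
      intro Z hZ
      have h1 := card_listsOf_reach Ls 0 Z
      have h2 : S₁.card ≤ k + 1 := by rw [← hW]; exact Finset.card_le_univ _
      have h3 : 2 * (2 * d + 1) ^ 0 * Z.card ≤ 2 * (k + 1) := by
        rw [pow_zero]; omega
      omega)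
    han (by omega) (hc _ hS₁card)
  refine final_leaf hT.1 hk hW Ls R hS₂cl hφ ?_ ?_
  · intro x hx
    have hxR : x ∈ Rm := by
      by_contra h
      exact hx (by rw [hS₂, Finset.mem_sdiff]; exact ⟨Finset.mem_univ _, h⟩)
    exact hS₁S₂ (hparI x (hRmA x hxR).1)
  · intro x hx
    have hxR : x ∈ Rm := by
      by_contra h
      exact hx (by rw [hS₂, Finset.mem_sdiff]; exact ⟨Finset.mem_univ _, h⟩)
    apply hsafe
    rw [reach, listsOf, Finset.mem_union]
    have h1 : φ (R.par x) ∈ S₁.image φ := Finset.mem_image_of_mem _ (hparI x (hRmA x hxR).1)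
    rcases Bool.eq_false_or_eq_true (R.sg x) with h2 | h2
    · rw [h2]; exact Or.inl (Finset.mem_image_of_mem _ h1)
    · rw [h2]; exact Or.inr (Finset.mem_image_of_mem _ h1)

/-- Case of few leaves. -/
theorem deep_case [DecidableEq V] [DecidableEq W] [Fintype W] {T : Digraph W} {D : Digraph V}
    {d m k : ℕ} (hT : IsOrientedTree k T) (hD : IsOrientedGraph D) (hk : d + m = k)
    (hm : 32 * (m + 1) ≤ d) (Ls : Lists D d) (v : V) (c : W)
    (A B I : Finset W) (hI : ∀ x, x ∈ I ↔ ¬ IsLeaf T x)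
    (hcA : c ∉ A) (hcB : c ∉ B) (hAB : Disjoint A B) (hcover : ∀ x, x = c ∨ x ∈ A ∨ x ∈ B)
    (hedge : ∀ x ∈ A, ∀ y ∈ B, ¬ Nbr T x y)
    (hIB : I.card ≤ 3 * (I ∩ B).card + 3) (hIA : I.card ≤ 3 * (I ∩ A).card + 3)
    (hle : A.card ≤ B.card)
    (hm1 : 1 ≤ m) (hkm : (1000 * m) ^ 2 ≤ k) (hi : k + 1 ≤ I.card + 2 * m) : Contains D T := by
  classical
  obtain ⟨R⟩ := exists_rooted hT c
  have hW : Fintype.card W = k + 1 := by rw [← Nat.card_eq_fintype_card]; exact hT.2.2
  obtain ⟨a, n, ha, han, hn, hc⟩ := num_deep hm1 hkm hi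
  have hcardAB : A.card + B.card + 1 = k + 1 := by
    have h1 : (univ : Finset W) = insert c (A ∪ B) := by
      ext x
      simp only [Finset.mem_univ, Finset.mem_insert, Finset.mem_union, true_iff]
      exact hcover x
    rw [← hW, ← Finset.card_univ, h1, Finset.card_insert_of_notMem, Finset.card_union_of_disjoint hAB]
    simp [hcA, hcB]
  have hkbig : 1000000 * m ≤ k := by nlinarith
  have hroot : R.Closed {c} := by
    refine ⟨Finset.mem_singleton_self c, ?_⟩
    intro x hx hxc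
    exact absurd (Finset.mem_singleton.1 hx) hxc
  have hparA : ∀ x ∈ A, R.par x ∈ A ∨ R.par x = c := by
    intro x hx
    have hxc : x ≠ c := fun h => hcA (h ▸ hx)
    rcases hcover (R.par x) with h1 | h1 | h1
    · exact Or.inr h1
    · exact Or.inl h1
    · exact absurd (R.nbr_par hxc) (hedge _ hx _ h1)
  have hparB : ∀ x ∈ B, R.par x ∈ B ∨ R.par x = c := by
    intro x hx
    have hxc : x ≠ c := fun h => hcB (h ▸ hx)
    rcases hcover (R.par x) with h1 | h1 | h1
    · exact Or.inr h1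
    · exact absurd (R.nbr_par hxc).symm' (hedge _ h1 _ hx)
    · exact Or.inl h1
  have hAcl : R.Closed (insert c A) := by
    refine ⟨Finset.mem_insert_self _ _, ?_⟩
    intro x hx hxc
    rcases Finset.mem_insert.1 hx with h1 | h1
    · exact absurd h1 hxc
    · rcases hparA x h1 with h2 | h2
      · exact Finset.mem_insert_of_mem h2
      · rw [h2]; exact Finset.mem_insert_self _ _
  have hAc : (insert c A).card = A.card + 1 := Finset.card_insert_of_notMem hcA
  have hAm : m ≤ A.card := by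
    have h1 : (I ∩ A).card ≤ A.card := Finset.card_le_card Finset.inter_subset_right
    omega
  obtain ⟨S₁, hS₁cl, hcS₁, hS₁A, hS₁card⟩ := Closed.exists_card R hroot hAcl
    (by intro x hx; rw [Finset.mem_singleton] at hx; rw [hx]; exact Finset.mem_insert_self _ _)
    (j := A.card + 1 - m) (by rw [Finset.card_singleton]; omega) (by omega)
  set S₂ := S₁ ∪ B with hS₂
  have hdisj : Disjoint S₁ B := by
    rw [Finset.disjoint_left]
    intro x hx hxB
    rcases Finset.mem_insert.1 (hS₁A hx) with h1 | h1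
    · exact hcB (h1 ▸ hxB)
    · exact (Finset.disjoint_left.1 hAB h1) hxB
  have hS₂cl : R.Closed S₂ := by
    refine ⟨Finset.mem_union_left _ hS₁cl.1, ?_⟩
    intro x hx hxc
    rcases Finset.mem_union.1 hx with h1 | h1
    · exact Finset.mem_union_left _ (hS₁cl.2 x h1 hxc)
    · rcases hparB x h1 with h2 | h2
      · exact Finset.mem_union_right _ h2
      · rw [h2]; exact Finset.mem_union_left _ hS₁cl.1
  have hS₂card : S₂.card = d + 1 := by
    rw [hS₂, Finset.card_union_of_disjoint hdisj, hS₁card]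
    omega
  obtain ⟨φ, hφ, hsafe⟩ := stages hT.1 hD hk hm Ls v R S₁ S₂ A B I hI hcA hcB hAB hcover hedge
    hS₁cl hS₁A hS₂cl (by rw [hS₂]) hS₂card.le (m - 1) a n
    (by
      intro Z hZ
      have h1 := card_listsOf_reach Ls (m - 1) Z
      have h2 : S₁.card ≤ k + 1 := by rw [← hW]; exact Finset.card_le_univ _
      have h3 : (2 * d + 1) ^ (m - 1) ≤ (2 * k + 1) ^ m :=
        (Nat.pow_le_pow_left (by omega) _).trans (Nat.pow_le_pow_right (by omega) (by omega))
      have h4 : 2 * (2 * d + 1) ^ (m - 1) * Z.card ≤ 2 * (2 * k + 1) ^ m * (k + 1) :=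
        Nat.mul_le_mul (Nat.mul_le_mul_left _ h3) (by omega)
      omega)
    han (by omega) (hc _ (by omega))
  refine final_deep hT.1 hk hW Ls R hS₂cl hφ (S₁.image φ) ?_ (m - 1) ?_ hsafe
  · intro x hx hp
    apply Finset.mem_image_of_mem
    have hxc : x ≠ c := fun h => hx (h ▸ Finset.mem_union_left _ hS₁cl.1)
    have hxA : x ∈ A := by
      rcases hcover x with h1 | h1 | h1
      · exact absurd h1 hxc
      · exact h1
      · exact absurd (Finset.mem_union_right _ h1) hx
    rcases Finset.mem_union.1 hp with h1 | h1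
    · exact h1
    · exact absurd (R.nbr_par hxc) (hedge _ hxA _ h1)
  · rw [Finset.card_sdiff_of_subset (Finset.subset_univ _), hS₂card, Finset.card_univ, hW]
    omega

theorem main {k m d : ℕ} (hk : d + m = k) (hkm : (1000 * m) ^ 2 ≤ k) [Finite V] {D : Digraph V}
    (hD : IsOrientedGraph D) (hdeg : ∀ x, d ≤ outDeg D x ∧ d ≤ inDeg D x) {v : V}
    (hv : k ≤ outDeg D v ∧ k ≤ inDeg D v) [Finite W] {T : Digraph W} (hT : IsOrientedTree k T) :
    Contains D T := by
  classical
  have := Fintype.ofFinite W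
  have := Fintype.ofFinite V
  obtain ⟨Ls⟩ := exists_lists hdeg
  have hW : Fintype.card W = k + 1 := by rw [← Nat.card_eq_fintype_card]; exact hT.2.2
  rcases Nat.eq_zero_or_pos m with hm0 | hm1
  · -- greedy
    have : Nonempty W := by
      rw [← Fintype.card_pos_iff]; omega
    obtain ⟨c⟩ := ‹Nonempty W›
    obtain ⟨R⟩ := exists_rooted hT c
    have hroot : R.Closed {c} := by
      refine ⟨Finset.mem_singleton_self c, ?_⟩
      intro x hx hxc
      exact absurd (Finset.mem_singleton.1 hx) hxc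
    have hemb0 : Emb T D {c} (fun _ => v) := by
      refine ⟨by simp, ?_⟩
      intro a ha b hb hab
      rw [Finset.mem_singleton] at ha hb
      subst ha; subst hb
      exact absurd hab (hT.1.1 _)
    obtain ⟨φ, hφ, -⟩ := greedy hT.1 hD.1 Ls R hroot (S' := univ)
      ⟨Finset.mem_univ _, fun _ _ _ => Finset.mem_univ _⟩ (Finset.subset_univ _)
      (by rw [Finset.card_univ, hW]; omega) hemb0
    refine ⟨φ, ?_, fun a b hab => hφ.2 a (Finset.mem_univ _) b (Finset.mem_univ _) hab⟩
    intro a b hab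
    exact hφ.1 (Finset.mem_coe.2 (Finset.mem_univ a)) (Finset.mem_coe.2 (Finset.mem_univ b)) hab
  have hkbig : 1000000 * m ≤ k := by nlinarith
  by_cases hleafy : ∃ (t : W) (Lf : Finset W), (∀ x ∈ Lf, IsLeaf T x ∧ Nbr T x t) ∧ m ≤ Lf.card
  · obtain ⟨t, Lf, hLf, hmL⟩ := hleafy
    exact leafy hT hD.1 hk Ls hv t Lf hLf hmL (by omega)
  push Not at hleafy
  set I : Finset W := univ.filter (fun x => ¬ IsLeaf T x) with hIdef
  have hI : ∀ x, x ∈ I ↔ ¬ IsLeaf T x := by
    intro x
    rw [hIdef, Finset.mem_filter]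
    simp
  have hi := card_internal hT (by omega) m hleafy I hI
  have hIc : 4 ≤ I.card := by
    have h1 : 1000000 * m < m * I.card := by omega
    have h2 : 1000000 < I.card := by
      by_contra h
      push Not at h
      have := Nat.mul_le_mul_left m h
      omega
    omega
  obtain ⟨c, A, B, hcA, hcB, hAB, hcover, hedge, hIA, hIB⟩ := splitting hT I hIc
  have hedge' : ∀ x ∈ B, ∀ y ∈ A, ¬ Nbr T x y := fun x hx y hy h => hedge y hy x hx h.symm'
  have hcover' : ∀ x, x = c ∨ x ∈ B ∨ x ∈ A := by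
    intro x
    rcases hcover x with h | h | h
    · exact Or.inl h
    · exact Or.inr (Or.inr h)
    · exact Or.inr (Or.inl h)
  have hm32 : 32 * (m + 1) ≤ d := by omega
  by_cases hA : m ≤ (A \ I).card
  · exact leaf_case hT hD hk hm32 Ls v c A B I hI hcA hcB hAB hcover hedge hIB hA hm1 hkm hi
  by_cases hB : m ≤ (B \ I).card
  · exact leaf_case hT hD hk hm32 Ls v c B A I hI hcB hcA hAB.symm hcover' hedge' hIA hB hm1 hkm hi
  push Not at hA hB
  have hfew : k + 1 ≤ I.card + 2 * m := by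
    have h1 : (univ : Finset W) ⊆ insert c (I ∪ ((A \ I) ∪ (B \ I))) := by
      intro x _
      by_cases hx : x ∈ I
      · exact Finset.mem_insert_of_mem (Finset.mem_union_left _ hx)
      rcases hcover x with h | h | h
      · rw [h]; exact Finset.mem_insert_self _ _
      · exact Finset.mem_insert_of_mem (Finset.mem_union_right _ (Finset.mem_union_left _
          (Finset.mem_sdiff.2 ⟨h, hx⟩)))
      · exact Finset.mem_insert_of_mem (Finset.mem_union_right _ (Finset.mem_union_right _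
          (Finset.mem_sdiff.2 ⟨h, hx⟩)))
    have h2 := Finset.card_le_card h1
    have h3 := Finset.card_insert_le c (I ∪ ((A \ I) ∪ (B \ I)))
    have h4 := Finset.card_union_le I ((A \ I) ∪ (B \ I))
    have h5 := Finset.card_union_le (A \ I) (B \ I)
    rw [Finset.card_univ, hW] at h2
    omega
  rcases le_total A.card B.card with hle | hle
  · exact deep_case hT hD hk hm32 Ls v c A B I hI hcA hcB hAB hcover hedge hIB hIA hle hm1 hkm hfew
  · exact deep_case hT hD hk hm32 Ls v c B A I hI hcB hcA hAB.symm hcover' hedge' hIA hIB hle hm1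
      hkm hfew

theorem admissible : AdmissibleForOrientedGraphs (fun k => (k : ℝ) - Real.sqrt k / 1000) := by
  intro k V _ D hD hH W _ T hT
  obtain ⟨hdeg, v, hv⟩ := hH
  have := Fintype.ofFinite V
  -- the smallest semidegree bound
  set m : ℕ := ⌊Real.sqrt k / 1000⌋₊ with hmdef
  have hmle : (m : ℝ) ≤ Real.sqrt k / 1000 := Nat.floor_le (by positivity)
  have hmlt : Real.sqrt k / 1000 < m + 1 := Nat.lt_floor_add_one _
  have hkm : (1000 * m) ^ 2 ≤ k := by
    have h1 : (1000 * m : ℝ) ≤ Real.sqrt k := by linarith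
    have h2 : ((1000 * m : ℝ)) ^ 2 ≤ (Real.sqrt k) ^ 2 := by
      apply pow_le_pow_left₀ (by positivity) h1
    rw [Real.sq_sqrt (by positivity)] at h2
    exact_mod_cast h2
  have hmk : m ≤ k := by nlinarith
  obtain ⟨d, hd⟩ := Nat.exists_eq_add_of_le hmk
  refine main (k := k) (m := m) (d := d) (by omega) hkm hD ?_ hv hT
  intro x
  have h1 : ∀ q : ℕ, (k : ℝ) - Real.sqrt k / 1000 < q → d ≤ q := by
    intro q hq
    have h2 : (k : ℝ) = m + d := by exact_mod_cast hd
    have h3 : (d : ℝ) < q + 1 := by linarith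
    have h4 : d < q + 1 := by exact_mod_cast h3
    omega
  exact ⟨h1 _ (hdeg x).1, h1 _ (hdeg x).2⟩

end Pool.Agent.Lib.MP_47458b_co.Up
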