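import Pool.Agent.Lib.MP_47458b_co.Up.Defs

/-! Stubs for the oriented upper bound (NOT imported by hand-ins). -/

namespace Pool.Agent.Lib.MP_47458b_co.Up

open Finset

variable {V W : Type}

/-- U1. Every oriented tree has a rooted description at every root. -/
theorem exists_rooted {k : ℕ} {T : Digraph W} (hT : IsOrientedTree k T) (r : W) :
    Nonempty (Rooted T r) := by
  sorry

/-- U2a. -/
theorem Closed.insert [DecidableEq W] {T : Digraph W} {r : W} (R : Rooted T r) {S : Finset W}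
    (hS : R.Closed S) {x : W} (hp : R.par x ∈ S) : R.Closed (insert x S) := by
  sorry

/-- U2b. One more vertex. -/
theorem Emb.extend [DecidableEq W] {T : Digraph W} {D : Digraph V} (hT : IsOrientedGraph T) {r : W}
    (R : Rooted T r) {S : Finset W} (hS : R.Closed S) {φ : W → V} (hφ : Emb T D S φ) {x : W}
    (hx : x ∉ S) (hp : R.par x ∈ S) {z : V} (hz : ∀ a ∈ S, φ a ≠ z)
    (h1 : R.sg x = true → D.Adj (φ (R.par x)) z) (h2 : R.sg x = false → D.Adj z (φ (R.par x))) :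
    Emb T D (insert x S) (Function.update φ x z) := by
  sorry

/-- U2c. Between two closed sets there is a next vertex. -/
theorem Closed.next {T : Digraph W} {r : W} (R : Rooted T r) {S S' : Finset W} (hS : R.Closed S)
    (hS' : R.Closed S') (h : ¬ S' ⊆ S) : ∃ x ∈ S', x ∉ S ∧ R.par x ∈ S := by
  sorry

/-- U2d. Closed sets of every size between two closed sets. -/
theorem Closed.exists_card [DecidableEq W] {T : Digraph W} {r : W} (R : Rooted T r)
    {S S' : Finset W} (hS : R.Closed S) (hS' : R.Closed S') (h : S ⊆ S') {j : ℕ}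
    (h1 : S.card ≤ j) (h2 : j ≤ S'.card) :
    ∃ S'' : Finset W, R.Closed S'' ∧ S ⊆ S'' ∧ S'' ⊆ S' ∧ S''.card = j := by
  sorry

/-- U3. Greedy extension. -/
theorem greedy [DecidableEq W] {T : Digraph W} {D : Digraph V} (hT : IsOrientedGraph T)
    (hD : Loopless D) {d : ℕ} (Ls : Lists D d) {r : W} (R : Rooted T r) {S S' : Finset W}
    (hS : R.Closed S) (hS' : R.Closed S') (h : S ⊆ S') (hc : S'.card ≤ d + 1) {φ : W → V}
    (hφ : Emb T D S φ) : ∃ φ' : W → V, Emb T D S' φ' ∧ ∀ x ∈ S, φ' x = φ x := by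
  sorry

/-- U4. Few vertices of `M` have almost their whole list in `M`. -/
theorem few_closed [DecidableEq V] {D : Digraph V} (hD : IsOrientedGraph D) {d : ℕ}
    (Ls : Lists D d) (M : Finset V) (hM : M.card = d) (σ : Bool) (e : ℕ) :
    (M.filter fun y => (Ls.L σ y \ M).card < e).card ≤ 2 * e := by
  sorry

/-- U5. The pair step. -/
theorem pair_step [DecidableEq V] {D : Digraph V} (hD : IsOrientedGraph D) {d m k : ℕ}
    (hk : d + m = k) (hm : 32 * (m + 1) ≤ d) (Ls : Lists D d) (U : Finset V)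
    (hU : 4 * (U.card + m) ≤ 3 * k) (y : V) (τ σ : Bool) (J : Finset (Finset V))
    (hJ : ∀ M ∈ J, M.card = d) :
    ∃ z z' : V, z ∈ Ls.L τ y ∧ z ∉ U ∧ z' ∈ Ls.L σ z ∧ z' ∉ U ∧ z' ≠ z ∧
      ∑ M ∈ J, pot m (insert z' (insert z U)) M ≤ (127 / 128) * ∑ M ∈ J, pot m U M := by
  sorry

/-- U6. Stage 2. -/
theorem stage2 [DecidableEq V] [DecidableEq W] {T : Digraph W} {D : Digraph V}
    (hT : IsOrientedGraph T) (hD : IsOrientedGraph D) {d m k : ℕ} (hk : d + m = k)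
    (hm : 32 * (m + 1) ≤ d) (Ls : Lists D d) {r : W} (R : Rooted T r)
    (J : Finset (Finset V)) (hJ : ∀ M ∈ J, M.card = d) (S₁ B I : Finset W) (hS₁ : R.Closed S₁)
    (hdis : Disjoint S₁ B) (hB : ∀ x, x ≠ r → R.par x ∈ B → x ∈ B) (hI : I ⊆ B)
    (hI' : ∀ x ∈ I, ∃ y, y ≠ r ∧ R.par y = x) (hIc : ∀ x ∈ I, R.par x ∈ I ∨ R.par x = r)
    {φ : W → V} (hφ : Emb T D S₁ φ) (n : ℕ) (hn : 2 * n ≤ I.card)
    (hc : 4 * (S₁.card + 2 * n + m) ≤ 3 * k) :
    ∃ (S : Finset W) (φ' : W → V), R.Closed S ∧ S₁ ⊆ S ∧ S ⊆ S₁ ∪ B ∧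
      S.card = S₁.card + 2 * n ∧ Emb T D S φ' ∧ (∀ x ∈ S₁, φ' x = φ x) ∧
      ∑ M ∈ J, pot m (S.image φ') M ≤ (127 / 128) ^ n * ∑ M ∈ J, pot m (S₁.image φ) M := by
  sorry

/-- U7a. Last stage, all missing vertices have their parents in `S`. -/
theorem final_leaf [DecidableEq V] [DecidableEq W] [Fintype W] {T : Digraph W} {D : Digraph V}
    (hT : IsOrientedGraph T) {d m k : ℕ} (hk : d + m = k) (hW : Fintype.card W = k + 1)
    (Ls : Lists D d) {r : W} (R : Rooted T r) {S : Finset W} (hS : R.Closed S) {φ : W → V}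
    (hφ : Emb T D S φ) (hpar : ∀ x, x ∉ S → R.par x ∈ S)
    (hsafe : ∀ x, x ∉ S → m < (S.image φ \ Ls.L (R.sg x) (φ (R.par x))).card) :
    Contains D T := by
  sorry

/-- U7b. Last stage, general version. -/
theorem final_deep [DecidableEq V] [DecidableEq W] [Fintype W] {T : Digraph W} {D : Digraph V}
    (hT : IsOrientedGraph T) {d m k : ℕ} (hk : d + m = k) (hW : Fintype.card W = k + 1)
    (Ls : Lists D d) {r : W} (R : Rooted T r) {S : Finset W} (hS : R.Closed S) {φ : W → V}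
    (hφ : Emb T D S φ) (Z : Finset V) (hZ : ∀ x, x ∉ S → R.par x ∈ S → φ (R.par x) ∈ Z) (h : ℕ)
    (hh : (univ \ S).card ≤ h + 1)
    (hsafe : ∀ M ∈ listsOf Ls (reach Ls h Z), m < (S.image φ \ M).card) :
    Contains D T := by
  sorry

/-- U8. A vertex of `T` with many leaf neighbours. -/
theorem leafy [Finite V] [DecidableEq W] [Fintype W] {T : Digraph W} {D : Digraph V} {k d m : ℕ}
    (hT : IsOrientedTree k T) (hD : Loopless D) (hk : d + m = k) (Ls : Lists D d) {v : V}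
    (hv : k ≤ outDeg D v ∧ k ≤ inDeg D v) (t : W) (Lf : Finset W)
    (hLf : ∀ x ∈ Lf, IsLeaf T x ∧ Nbr T x t) (hm : m ≤ Lf.card) (hk2 : 2 ≤ k) :
    Contains D T := by
  sorry

/-- U9. Splitting at a vertex. -/
theorem splitting [Fintype W] [DecidableEq W] {k : ℕ} {T : Digraph W} (hT : IsOrientedTree k T)
    (I : Finset W) (hI : 4 ≤ I.card) :
    ∃ (c : W) (A B : Finset W), c ∉ A ∧ c ∉ B ∧ Disjoint A B ∧ (∀ x, x = c ∨ x ∈ A ∨ x ∈ B) ∧
      (∀ x ∈ A, ∀ y ∈ B, ¬ Nbr T x y) ∧ I.card ≤ 3 * (I ∩ A).card + 3 ∧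
      I.card ≤ 3 * (I ∩ B).card + 3 := by
  sorry

/-- U10. If every vertex has fewer than `m` leaf neighbours, there are at least `(k + 1) / m`
internal vertices. -/
theorem card_internal [Fintype W] [DecidableEq W] {k : ℕ} {T : Digraph W}
    (hT : IsOrientedTree k T) (hk : 2 ≤ k) (m : ℕ)
    (h : ∀ (t : W) (Lf : Finset W), (∀ x ∈ Lf, IsLeaf T x ∧ Nbr T x t) → Lf.card < m)
    (I : Finset W) (hI : ∀ x, x ∈ I ↔ ¬ IsLeaf T x) : k + 1 ≤ m * I.card := by
  sorry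

/-- U11a. Sizes of the sets of lists. -/
theorem card_listsOf_reach [DecidableEq V] {D : Digraph V} {d : ℕ} (Ls : Lists D d) (h : ℕ)
    (Z : Finset V) : (listsOf Ls (reach Ls h Z)).card ≤ 2 * (2 * d + 1) ^ h * Z.card := by
  sorry

/-- U11b. Small total potential means that every set is safe. -/
theorem safe_of_pot [DecidableEq V] {m n a : ℕ} {U U₁ : Finset V} {J : Finset (Finset V)}
    (hJ : J.card < 2 ^ a) (hn : 89 * (a + m) ≤ n)
    (h : ∑ M ∈ J, pot m U M ≤ (127 / 128) ^ n * ∑ M ∈ J, pot m U₁ M) :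
    ∀ M ∈ J, m < (U \ M).card := by
  sorry

/-- U12. Existence of lists. -/
theorem exists_lists [Finite V] {D : Digraph V} {d : ℕ} (h : ∀ x, d ≤ outDeg D x ∧ d ≤ inDeg D x) :
    Nonempty (Lists D d) := by
  sorry

/-- U13. Numerical fact for the leaf case. -/
theorem num_leaf {k m i : ℕ} (hm : 1 ≤ m) (hk : (1000 * m) ^ 2 ≤ k) (hi : k + 1 ≤ m * i)
    (hi' : i ≤ k + 1) :
    ∃ a n : ℕ, 2 * (k + 1) < 2 ^ a ∧ 89 * (a + m) ≤ n ∧ 6 * n + 3 ≤ i ∧
      ∀ s : ℕ, 3 * s ≤ 2 * i + 6 → 4 * (s + 2 * n + m) ≤ 3 * k := by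
  sorry

/-- U14. Numerical fact for the few leaves case. -/
theorem num_deep {k m i : ℕ} (hm : 1 ≤ m) (hk : (1000 * m) ^ 2 ≤ k) (hi : k + 1 ≤ i + 2 * m) :
    ∃ a n : ℕ, 2 * (2 * k + 1) ^ m * (k + 1) < 2 ^ a ∧ 89 * (a + m) ≤ n ∧ 6 * n + 3 ≤ i ∧
      ∀ s : ℕ, 2 * s ≤ k + 2 → 4 * (s + 2 * n + m) ≤ 3 * k := by
  sorry

end Pool.Agent.Lib.MP_47458b_co.Up
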